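import Pool.Agent.N113.EC.Rk

/-!
# The rank theory of the products of a family of elliptic curves
-/

set_option autoImplicit false
set_option linter.unusedSectionVars false
set_option linter.style.haveILetI false

namespace Pool.Agent.N113.EC

open Pool.Agent.N101.ZP
open Pool.Agent.N101.ZE (rkt_le_of rkt_pm' rel_map rkt_map_inj rkt_le_one rkt_le_zero)
open MvPolynomial
open Pool.Agent.R948 (mon rel dr relProj dr_sum le_dr_sum rank_ext dr_le_card td cp un)

section

variable {F : Type} [Field F] [CharZero F] [IsAlgClosed F] {J : Type} (E : J → Cv F)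

/-- The rank theory: a coordinate of sort `j` is the value `u (P)` at a point `P` of `E j`; the rank
of a tuple of coordinates is the rank of the group generated by the points in the product of the
groups of points. -/
noncomputable def RTh : RT F where
  S := J
  nz _ := False
  rk s p := rkt (fun i => eu E (s i) (p i))
  rk_card {K} _ _ {ι} _ s p := by
    have := rkt_add_dr (fun i => eu E (s i) (p i))
    omega
  rk_comp s p f := rkt_comp (fun i => eu E (s i) (p i)) f
  rk_add s p := rkt_add (fun i => eu E (s i) (p i))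
  rk_spec {K L} _ _ _ _ {ι} _ s p p' h _ := by
    obtain ⟨k, i1, i2, Q, g1, g2, g3⟩ := exists_spec' E s h
    have h3 := rkt_spec _ _ g1
    have h4 : rkt (fam E Q) = rkt (fun i => eu E (s i) (p' i)) := g2 ι id
    rw [← h4]
    exact h3
  rk_rel {K L} _ _ _ _ {ι κ} _ _ s p p' h _ := by
    obtain ⟨k, i1, i2, Q, g1, g2, g3⟩ := exists_spec' E s h
    have h3 := rkt_rel _ _ g1
    have h4 : rkt (fam E Q) = rkt (fun i => eu E (s i) (p' i)) := g2 (ι ⊕ κ) id
    have h5 := g2 ι Sum.inl
    rw [h4, h5] at h3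
    exact h3
  rk_ext {K} _ _ {ι κ} _ _ s p _ := by
    obtain ⟨J₁, h1, h2⟩ := rkt_ext (fun i => eu E (s i) (p i))
    refine ⟨J₁, h1.le, fun j => ?_⟩
    obtain ⟨N, hN, c, hc⟩ := h2 j
    refine alg_of_mon E (ι := ι ⊕ J₁) (Sum.elim (fun i => s (Sum.inl i))
      (fun j => s (Sum.inr (j : κ)))) (Sum.elim (fun i => p (Sum.inl i))
        (fun j => p (Sum.inr (j : κ)))) _ ?_ (s (Sum.inr j)) _ N hN c ?_
    · rintro (i | i)
      · exact Or.inl ⟨i, rfl⟩
      · exact Or.inr ⟨i, i.2, rfl⟩
    · have e2 : (fun i => eu E ((Sum.elim (fun i => s (Sum.inl i))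
        (fun j => s (Sum.inr (j : κ))) : ι ⊕ J₁ → J) i) ((Sum.elim (fun i => p (Sum.inl i))
        (fun j => p (Sum.inr (j : κ))) : ι ⊕ J₁ → K) i)) =
          Sum.elim (fun i => eu E (s (Sum.inl i)) (p (Sum.inl i)))
            (fun j : J₁ => eu E (s (Sum.inr j)) (p (Sum.inr j))) := by
        funext i
        rcases i with i | i <;> rfl
      rw [e2]
      exact hc
  rk_cut s p p' h _ a b hs hab hab' := by
    obtain ⟨k, i1, i2, Q, g1, g2, g3⟩ := exists_spec' E s h
    have h4 := g2 _ id
    have h5 := g3 a b hs hab hab'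
    have h6 : rkt (fam E Q) = rkt (fun i => eu E (s i) (p' i)) := h4
    rw [← h6]
    exact h5

theorem okr {K : Type} [Field K] [Algebra F K] {ι : Type} (s : ι → (RTh E).S) (p : ι → K) :
    (RTh E).Ok s p := fun _ hi => hi.elim

theorem rk_eq {K : Type} [Field K] [Algebra F K] {ι : Type} [Fintype ι] (s : ι → J) (p : ι → K) :
    (RTh E).rk s p = rkt (fun i => eu E (s i) (p i)) := rfl

/-! ### special conditions -/

variable {E} {κ : Type} [Fintype κ]

theorem spC_of (s : κ → J) (L : List (MvPolynomial κ F))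
    (h : ∀ (K : Type) [Field K] [Algebra F K] (y : κ → K), (∀ f ∈ L, aeval y f = 0) →
      rkt (fun i => eu E (s i) (y i)) + L.length ≤ Fintype.card κ) :
    SpC (RTh E) s (Cond.pols L) :=
  spC_pols (T := RTh E) (s := s) _ fun K _ _ y _ hy => h K y hy

theorem spC_eq (j : J) : SpC (RTh E) (fun _ : Fin 2 => j)
    (Cond.pols [X 0 - X 1] : Cond F (Fin 2)) := by
  refine spC_of (E := E) _ _ fun K _ _ y hy => ?_
  have h2 := hy _ List.mem_cons_self
  rw [map_sub, aeval_X, aeval_X, sub_eq_zero] at h2
  have h3 := rkt_le_one (fun i : Fin 2 => eu E j (y i)) (eu E j (y 0)) (fun _ => 1) (fun _ => 1)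
    (fun _ => ⟨1, one_pos, one_pow 1⟩) (fun i => by
      rw [one_mul, zpow_one]
      fin_cases i
      · rfl
      · change eu E j (y 1) = _
        rw [h2])
  simp only [List.length_cons, List.length_nil, Fintype.card_fin]
  omega

theorem spC_const {j : J} {c : F} (hc : ∀ (K : Type) [Field K] [Algebra F K] (P : (E j).Pt K),
    P ≠ 0 → (E j).uu P = algebraMap F K c → P + P = 0) :
    SpC (RTh E) (fun _ : Fin 1 => j) (Cond.pols [X 0 - C c] : Cond F (Fin 1)) := by
  refine spC_of (E := E) _ _ fun K _ _ y hy => ?_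
  have h2 := hy _ List.mem_cons_self
  rw [map_sub, aeval_X, aeval_C, sub_eq_zero] at h2
  have h3 := rkt_le_zero (fun i : Fin 1 => eu E j (y i)) fun i => by
    have : i = 0 := Subsingleton.elim _ _
    rw [this]
    refine ⟨2, two_pos, ?_⟩
    have h4 := hc (AlgebraicClosure K) ((E j).lift (y 0)) ((E j).lift_ne _) (by
      rw [(E j).uu_lift, h2, ← IsScalarTower.algebraMap_apply])
    rw [pow_two]
    change mul E (sg E j ((E j).lift (y 0)) + sg E j ((E j).lift (y 0))) = 1
    rw [← map_add, h4, map_zero]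
    rfl
  simp only [List.length_cons, List.length_nil, Fintype.card_fin]
  omega

theorem spC_zero (j : J) : SpC (RTh E) (fun _ : Fin 1 => j)
    (Cond.pols [X 0 - C 0] : Cond F (Fin 1)) :=
  spC_const (c := 0) fun K _ _ P hP h => by
    rw [map_zero] at h
    rw [(E j).eq_T_of_uu hP h]
    exact (E j).T_add_T

theorem spC_al (j : J) : SpC (RTh E) (fun _ : Fin 1 => j)
    (Cond.pols [X 0 - C (E j).al] : Cond F (Fin 1)) :=
  spC_const fun K _ _ P hP h => by
    apply (E j).add_self_of_yy
    have h1 := (E j).eqn hP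
    have h2 : (E j).uu P - (E j).A K = 0 := sub_eq_zero.2 h
    rw [h2, mul_zero, zero_mul] at h1
    exact pow_eq_zero_iff two_ne_zero |>.1 h1

theorem spC_be (j : J) : SpC (RTh E) (fun _ : Fin 1 => j)
    (Cond.pols [X 0 - C (E j).be] : Cond F (Fin 1)) :=
  spC_const fun K _ _ P hP h => by
    apply (E j).add_self_of_yy
    have h1 := (E j).eqn hP
    have h2 : (E j).uu P - (E j).B K = 0 := sub_eq_zero.2 h
    rw [h2, mul_zero] at h1
    exact pow_eq_zero_iff two_ne_zero |>.1 h1

/-- translation by a point of order two -/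
theorem spC_inv (j : J) : SpC (RTh E) (fun _ : Fin 2 => j)
    (Cond.pols [X 0 * X 1 - C ((E j).al * (E j).be)] : Cond F (Fin 2)) := by
  refine spC_of (E := E) _ _ fun K _ _ y hy => ?_
  have h2 := hy _ List.mem_cons_self
  have hAB : algebraMap F K ((E j).al * (E j).be) = (E j).A K * (E j).B K := map_mul _ _ _
  rw [map_sub, map_mul, aeval_X, aeval_X, aeval_C, sub_eq_zero, hAB] at h2
  let φ : K →+* AlgebraicClosure K := algebraMap K (AlgebraicClosure K)
  have hφA : φ ((E j).A K) = (E j).A (AlgebraicClosure K) :=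
    (IsScalarTower.algebraMap_apply F K (AlgebraicClosure K) (E j).al).symm
  have hφB : φ ((E j).B K) = (E j).B (AlgebraicClosure K) :=
    (IsScalarTower.algebraMap_apply F K (AlgebraicClosure K) (E j).be).symm
  have hy0 : φ (y 0) ≠ 0 := by
    intro h0
    have h3 : y 0 = 0 := (map_eq_zero_iff φ φ.injective).1 h0
    rw [h3, zero_mul] at h2
    exact mul_ne_zero ((E j).A_ne K) ((E j).B_ne K) h2.symm
  have hP := (E j).lift_ne (y 0)
  have hPu : (E j).uu ((E j).lift (y 0)) = φ (y 0) := (E j).uu_lift (y 0)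
  obtain ⟨g1, g2, -⟩ := (E j).add_T hP (by rw [hPu]; exact hy0)
  have e1 : (E j).uu ((E j).lift (y 1)) =
      (E j).uu ((E j).lift (y 0) + (E j).T (AlgebraicClosure K)) := by
    rw [g2, hPu, ← hφA, ← hφB, eq_div_iff hy0, (E j).uu_lift]
    have := congrArg φ h2
    rw [map_mul, map_mul] at this
    rw [← this]
    exact mul_comm _ _
  have f1 := (E j).eq_or_neg ((E j).lift_ne (y 1)) g1 e1
  have hT : mul E (sg E j ((E j).T (AlgebraicClosure K))) ^ 2 = 1 := by
    rw [pow_two]
    change mul E (sg E j ((E j).T _) + sg E j ((E j).T _)) = 1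
    rw [← map_add, (E j).T_add_T, map_zero]
    rfl
  have key : ∀ i : Fin 2, ∃ (t : Multiplicative (GG E (AlgebraicClosure K))) (m : ℤ), t ^ 2 = 1 ∧
      eu E j (y i) = t * (mul E (sg E j ((E j).lift (y 0)))) ^ m := by
    intro i
    fin_cases i
    · exact ⟨1, 1, one_pow 2, by rw [one_mul, zpow_one]; rfl⟩
    · rcases f1 with f1 | f1
      · refine ⟨mul E (sg E j ((E j).T (AlgebraicClosure K))), 1, hT, ?_⟩
        change mul E (sg E j ((E j).lift (y 1))) = _
        rw [f1, zpow_one, mul_comm, map_add]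
        rfl
      · refine ⟨(mul E (sg E j ((E j).T (AlgebraicClosure K))))⁻¹, -1,
          by rw [inv_pow, hT, inv_one], ?_⟩
        change mul E (sg E j ((E j).lift (y 1))) = _
        rw [f1, zpow_neg_one, ← mul_inv, mul_comm, map_neg, map_add]
        rfl
  choose t m ht hm using key
  have h5 := rkt_le_one (fun i : Fin 2 => eu E j (y i)) _ m t (fun i => ⟨2, two_pos, ht i⟩) hm
  simp only [List.length_cons, List.length_nil, Fintype.card_fin]
  omega

end

end Pool.Agent.N113.EC
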