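import Pool.Agent.N101.ZP.MainA

/-!
# Systems with several kinds of base conditions

(A version of `Good` from `Pool.Agent.N101.ZP.Fin` in which the base condition may be imposed on
tuples of coordinates of all sorts which satisfy a predicate.)
-/

set_option autoImplicit false
set_option linter.unusedSectionVars false
set_option linter.style.haveILetI false

namespace Pool.Agent.N113.EC

open MvPolynomial Pool.Agent.R948
open Pool.Agent.N101.ZP (Sp PP Nz RT Cond FinR FinC SpC lemP exists_prod cutset cutset_finite aeval_hom alg_range)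
open Pool.Agent.N101.ZP.Cond
open Pool.Agent.N101

section Good

variable {F : Type} [Field F] {T : RT F} {n : Type} {bp : (n → T.S) → Prop} {R : Cond F n}

/-- finiteness for a condition together with arbitrary systems of base conditions -/
def FSR (T : RT F) {n : Type} (bp : (n → T.S) → Prop) (R : Cond F n) {ι : Type} [Fintype ι] (s : ι → T.S)
    (D : ∀ {K : Type} [Field K] [Algebra F K], (ι → K) → Prop) (C : Cond F ι) : Prop :=
  ∀ (ι' : Type) [Fintype ι'] (s' : ι' → T.S) (f : ι → ι'), (∀ i, s' (f i) = s i) →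
    ∀ L : List (n → ι'), (∀ e ∈ L, bp (fun j => s' (e j))) →
      FinR T s' (fun y => D (fun i => y (f i))) ((C.comap f).and (R.list L))

/-- finiteness for a condition together with arbitrary systems of base conditions -/
def FS (T : RT F) {n : Type} (bp : (n → T.S) → Prop) (R : Cond F n) {ι : Type} [Fintype ι] (s : ι → T.S)
    (C : Cond F ι) : Prop := FSR T bp R s (fun _ => True) C

/-- conditions which may be added to systems -/
def GoodR (T : RT F) {n : Type} (bp : (n → T.S) → Prop) (R : Cond F n) {κ : Type} (s : κ → T.S)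
    (D : ∀ {K : Type} [Field K] [Algebra F K], (κ → K) → Prop) (G : Cond F κ) : Prop :=
  ∀ (ι : Type) [Fintype ι] (s' : ι → T.S) (C : Cond F ι), FS T bp R s' C →
    ∀ e : κ → ι, (∀ j, s' (e j) = s j) →
      FSR T bp R s' (fun y => D (fun j => y (e j))) (C.and (G.comap e))

/-- conditions which may be added to systems -/
def Good (T : RT F) {n : Type} (bp : (n → T.S) → Prop) (R : Cond F n) {κ : Type} (s : κ → T.S)
    (G : Cond F κ) : Prop := GoodR T bp R s (fun _ => True) G

variable {ι κ : Type} [Fintype ι]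

theorem FS.comap {s : ι → T.S} {C : Cond F ι} (h : FS T bp R s C) {ι' : Type} [Fintype ι']
    (s' : ι' → T.S) (f : ι → ι') (hf : ∀ i, s' (f i) = s i) : FS T bp R s' (C.comap f) := by
  intro ι'' _ s'' g hg L hL
  exact h ι'' s'' (fun i => g (f i)) (fun i => (hg _).trans (hf i)) L hL

theorem Good.base {bs : n → T.S} (hbs : bp bs) : Good T bp R bs R := by
  intro ι _ s C hC e he ι' _ s' f hf L hL
  refine ZP.FinR.congr (hC ι' s' f hf ((fun j => f (e j)) :: L) ?_) ?_ (fun K _ _ y _ _ _ => trivial)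
  · intro e' he'
    rcases List.mem_cons.1 he' with rfl | he'
    · have h1 : (fun j => s' (f (e j))) = bs := funext fun j => (hf _).trans (he j)
      rw [h1]
      exact hbs
    · exact hL e' he'
  · intro K _ _ y _
    constructor
    · rintro ⟨⟨h1, h2⟩, h3⟩
      refine ⟨h1, fun e' he' => ?_⟩
      rcases List.mem_cons.1 he' with rfl | he'
      · exact h2
      · exact h3 e' he'
    · rintro ⟨h1, h2⟩
      exact ⟨⟨h1, h2 _ List.mem_cons_self⟩, fun e' he' => h2 e' (List.mem_cons_of_mem _ he')⟩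

theorem GoodR.congr {s : κ → T.S} {D D' : ∀ {K : Type} [Field K] [Algebra F K], (κ → K) → Prop}
    {G G' : Cond F κ} (h : GoodR T bp R s D G)
    (h1 : ∀ (K : Type) [Field K] [Algebra F K] (y : κ → K), T.Ok s y → (G'.sat y ↔ G.sat y))
    (h2 : ∀ (K : Type) [Field K] [Algebra F K] (y : κ → K), T.Ok s y → G.sat y → D' y → D y) :
    GoodR T bp R s D' G' := by
  intro ι _ s' C hC e he ι' _ s'' f hf L hL
  refine ZP.FinR.congr (h ι s' C hC e he ι' s'' f hf L hL) ?_ ?_
  · intro K _ _ y hy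
    have h3 : T.Ok s (fun j => y (f (e j))) := hy.pull (fun j => f (e j)) (fun j => by rw [hf, he])
    constructor
    · rintro ⟨⟨h4, h5⟩, h6⟩
      exact ⟨⟨h4, (h1 K _ h3).1 h5⟩, h6⟩
    · rintro ⟨⟨h4, h5⟩, h6⟩
      exact ⟨⟨h4, (h1 K _ h3).2 h5⟩, h6⟩
  · rintro K _ _ y hy ⟨⟨h4, h5⟩, h6⟩ hD
    have h3 : T.Ok s (fun j => y (f (e j))) := hy.pull (fun j => f (e j)) (fun j => by rw [hf, he])
    exact h2 K _ h3 h5 hD

theorem GoodR.union {s : κ → T.S}
    {D D₁ D₂ : ∀ {K : Type} [Field K] [Algebra F K], (κ → K) → Prop} {G : Cond F κ}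
    (h₁ : GoodR T bp R s D₁ G) (h₂ : GoodR T bp R s D₂ G)
    (h : ∀ (K : Type) [Field K] [Algebra F K] (y : κ → K), T.Ok s y → G.sat y → D y →
      D₁ y ∨ D₂ y) : GoodR T bp R s D G := by
  intro ι _ s' C hC e he ι' _ s'' f hf L hL
  refine ZP.FinR.union (h₁ ι s' C hC e he ι' s'' f hf L hL) (h₂ ι s' C hC e he ι' s'' f hf L hL) ?_
  rintro K _ _ y hy ⟨⟨h4, h5⟩, h6⟩ hD
  have h3 : T.Ok s (fun j => y (f (e j))) := hy.pull (fun j => f (e j)) (fun j => by rw [hf, he])
  exact h K _ h3 h5 hD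

theorem Good.and {s : κ → T.S} {G G' : Cond F κ} (h : Good T bp R s G) (h' : Good T bp R s G') :
    Good T bp R s (G.and G') := by
  intro ι _ s' C hC e he
  have h1 := h' ι s' _ (h ι s' C hC e he) e he
  intro ι' _ s'' f hf L hL
  refine ZP.FinR.congr (h1 ι' s'' f hf L hL) ?_ (fun K _ _ y _ _ _ => trivial)
  intro K _ _ y hy
  constructor
  · rintro ⟨⟨h4, h5, h6⟩, h7⟩
    exact ⟨⟨⟨h4, h5⟩, h6⟩, h7⟩
  · rintro ⟨⟨⟨h4, h5⟩, h6⟩, h7⟩
    exact ⟨⟨h4, h5, h6⟩, h7⟩

theorem GoodR.comap {s : κ → T.S} {D : ∀ {K : Type} [Field K] [Algebra F K], (κ → K) → Prop}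
    {G : Cond F κ} (h : GoodR T bp R s D G) {κ' : Type}
    (s' : κ' → T.S) (f : κ → κ') (hf : ∀ i, s' (f i) = s i) :
    GoodR T bp R s' (fun y => D (fun j => y (f j))) (G.comap f) := by
  intro ι _ s'' C hC e he
  exact h ι s'' C hC (fun j => e (f j)) (fun j => (he _).trans (hf j))

theorem Good.comap {s : κ → T.S} {G : Cond F κ} (h : Good T bp R s G) {κ' : Type}
    (s' : κ' → T.S) (f : κ → κ') (hf : ∀ i, s' (f i) = s i) : Good T bp R s' (G.comap f) :=
  GoodR.comap h s' f hf

theorem Good.congr {s : κ → T.S} {G G' : Cond F κ} (h : Good T bp R s G)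
    (h1 : ∀ (K : Type) [Field K] [Algebra F K] (y : κ → K), T.Ok s y → (G'.sat y ↔ G.sat y)) :
    Good T bp R s G' := GoodR.congr h h1 (fun _ _ _ _ _ _ _ => trivial)

theorem Good.of_spC [IsAlgClosed F] [Fintype κ] {s : κ → T.S} {G : Cond F κ} (h : SpC T s G) :
    Good T bp R s G := by
  classical
  intro ι _ s' C hC e he ι' _ s'' f hf L hL
  have h1 := lemP (hC ι' s'' f hf L hL) h
    ((Finset.univ : Finset κ).toList.map fun j => (Sum.inr j, Sum.inl (f (e j)))) (by
      intro e' he'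
      obtain ⟨j, -, rfl⟩ := List.mem_map.1 he'
      simp [hf, he])
  refine ZP.FinR.proj h1 ?_ ?_ ?_
  · rintro K _ _ y hy ⟨⟨h2, h3⟩, h4⟩ -
    refine ⟨K, inferInstance, inferInstance, Sum.elim y (fun j => y (f (e j))), ?_, ?_, Sp.refl _,
      Sp.refl _⟩
    · rintro (i | j) hj
      · exact hy i hj
      · exact hy.pull (fun j => f (e j)) (fun j => by rw [hf, he]) j hj
    · refine ⟨⟨⟨h2, h4⟩, h3⟩, fun e' he' => ?_⟩
      obtain ⟨j, -, rfl⟩ := List.mem_map.1 he'
      rfl
  · rintro K L' _ _ _ _ q z ⟨⟨⟨h2, h3⟩, h4⟩, h5⟩ - - -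
    refine ⟨⟨h2, ?_⟩, h3⟩
    have h6 : (fun j => q (Sum.inl (f (e j)))) = fun j => q (Sum.inr j) := by
      funext j
      exact (h5 (Sum.inr j, Sum.inl (f (e j))) (List.mem_map.2
        ⟨j, Finset.mem_toList.2 (Finset.mem_univ j), rfl⟩)).symm
    change G.sat (fun j => q (Sum.inl (f (e j))))
    rw [h6]
    exact h4
  · rintro K _ _ q - ⟨-, h5⟩ j
    have h6 : q (Sum.inr j) = q (Sum.inl (f (e j))) :=
      h5 (Sum.inr j, Sum.inl (f (e j))) (List.mem_map.2
        ⟨j, Finset.mem_toList.2 (Finset.mem_univ j), rfl⟩)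
    rw [h6]
    exact alg_range (F := F) (fun i => q (Sum.inl i)) (f (e j))

/-- conditions with auxiliary coordinates -/
theorem Good.proj {lam : Type} [Fintype lam] {s : κ → T.S} {s' : lam → T.S} {G : Cond F κ}
    {D : ∀ {K : Type} [Field K] [Algebra F K], (κ → K) → Prop} {G' : Cond F (κ ⊕ lam)}
    (h : Good T bp R (Sum.elim s s') G')
    (h1 : ∀ (K : Type) [Field K] [Algebra F K] (y : κ → K), T.Ok s y → G.sat y → D y →
      ∃ (L : Type) (_ : Field L) (_ : Algebra F L) (φ : K →ₐ[F] L) (t : lam → L), T.Ok s' t ∧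
        G'.sat (Sum.elim (fun j => φ (y j)) t))
    (h2 : ∀ (K L : Type) [Field K] [Algebra F K] [Field L] [Algebra F L] (q : κ ⊕ lam → K)
      (z : κ ⊕ lam → L), G'.sat q → Sp F q z → T.Ok (Sum.elim s s') z →
      G.sat (fun i => z (Sum.inl i)) → G.sat (fun i => q (Sum.inl i)))
    (h3 : ∀ (K : Type) [Field K] [Algebra F K] (q : κ ⊕ lam → K), T.Ok (Sum.elim s s') q →
      G'.sat q → ∀ j, IsAlgebraic (Algebra.adjoin F (Set.range fun i => q (Sum.inl i)))
        (q (Sum.inr j))) : GoodR T bp R s D G := by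
  intro ι _ s₁ C hC e he ι' _ s₂ f hf L hL
  have a1 : FS T bp R (Sum.elim s₁ s') (C.comap Sum.inl) :=
    hC.comap (Sum.elim s₁ s') Sum.inl (fun _ => rfl)
  have a2 := h (ι ⊕ lam) (Sum.elim s₁ s') _ a1 (Sum.map e id) (by
    rintro (j | j)
    · exact he j
    · rfl)
  have a3 := a2 (ι' ⊕ lam) (Sum.elim s₂ s') (Sum.map f id) (by
    rintro (j | j)
    · exact hf j
    · rfl) (L.map fun e' j => Sum.inl (e' j)) (by
      intro e' he'
      obtain ⟨e'', he'', rfl⟩ := List.mem_map.1 he'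
      exact hL e'' he'')
  -- the coordinates of the condition
  have hmap : ∀ {K : Type} [Field K] [Algebra F K] (z : ι' ⊕ lam → K),
      (fun j => z (Sum.map f id (Sum.map e id j))) =
        Sum.elim (fun j => z (Sum.inl (f (e j)))) (fun j => z (Sum.inr j)) := by
    intro K _ _ z
    funext j
    rcases j with j | j <;> rfl
  refine ZP.FinR.proj a3 ?_ ?_ ?_
  · rintro K _ _ y hy ⟨⟨h4, h5⟩, h6⟩ hD
    have h7 : T.Ok s (fun j => y (f (e j))) := hy.pull (fun j => f (e j)) (fun j => by rw [hf, he])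
    obtain ⟨K', _, _, φ, t, ht, ht2⟩ := h1 K _ h7 h5 hD
    have e1 : Sp F y (fun i => φ (y i)) := fun g hg => by
      rw [aeval_hom φ y g, hg, map_zero]
    have e2 : Sp F (fun i => φ (y i)) y := fun g hg => by
      rw [aeval_hom φ y g] at hg
      exact (map_eq_zero_iff φ φ.injective).1 hg
    refine ⟨K', inferInstance, inferInstance, Sum.elim (fun i => φ (y i)) t, ?_, ?_, e1, e2⟩
    · rintro (i | j) hj
      · exact ZP.RT.Ok.of_sp (T := T) (s := s₂) e2 hy i hj
      · exact ht j hj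
    · refine ⟨⟨C.closed _ _ (e1.comp f) h4, ?_⟩, fun e' he' => ?_⟩
      · change G'.sat (fun j => (Sum.elim (fun i => φ (y i)) t) (Sum.map f id (Sum.map e id j)))
        rw [hmap]
        exact ht2
      · obtain ⟨e'', he'', rfl⟩ := List.mem_map.1 he'
        exact R.closed _ _ (e1.comp e'') (h6 e'' he'')
  · rintro K K' _ _ _ _ q z ⟨⟨h4, h5⟩, h6⟩ hqz hz ⟨⟨h7, h8⟩, h9⟩
    change G'.sat (fun j => q (Sum.map f id (Sum.map e id j))) at h5
    rw [hmap] at h5
    refine ⟨⟨h4, ?_⟩, fun e' he' => h6 _ (List.mem_map.2 ⟨e', he', rfl⟩)⟩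
    have e1 := hqz.comp (fun j => Sum.map f id (Sum.map e id j))
    rw [hmap, hmap] at e1
    refine h2 K K' _ _ h5 e1 ?_ h8
    rintro (j | j) hj
    · refine hz (Sum.inl (f (e j))) ?_
      change T.nz (s₂ (f (e j)))
      rw [hf, he]
      exact hj
    · exact hz (Sum.inr j) hj
  · rintro K _ _ q hq ⟨⟨h4, h5⟩, h6⟩ j
    change G'.sat (fun j => q (Sum.map f id (Sum.map e id j))) at h5
    rw [hmap] at h5
    refine (h3 K _ ?_ h5 j).adjoin_of_forall_isAlgebraic ?_
    · rintro (j | j) hj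
      · refine hq (Sum.inl (f (e j))) ?_
        change T.nz (s₂ (f (e j)))
        rw [hf, he]
        exact hj
      · exact hq (Sum.inr j) hj
    · rintro x ⟨⟨i, rfl⟩, -⟩
      exact alg_range (F := F) (fun i => q (Sum.inl i)) (f (e i))

theorem Good.proj1 {lam : Type} [Fintype lam] {s : κ → T.S} {s' : lam → T.S} {G : Cond F κ}
    {G' : Cond F (κ ⊕ lam)} (h : Good T bp R (Sum.elim s s') G')
    (h1 : ∀ (K : Type) [Field K] [Algebra F K] (y : κ → K), T.Ok s y → G.sat y →
      ∃ (L : Type) (_ : Field L) (_ : Algebra F L) (φ : K →ₐ[F] L) (t : lam → L), T.Ok s' t ∧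
        G'.sat (Sum.elim (fun j => φ (y j)) t))
    (h2 : ∀ (K L : Type) [Field K] [Algebra F K] [Field L] [Algebra F L] (q : κ ⊕ lam → K)
      (z : κ ⊕ lam → L), G'.sat q → Sp F q z → T.Ok (Sum.elim s s') z →
      G.sat (fun i => z (Sum.inl i)) → G.sat (fun i => q (Sum.inl i)))
    (h3 : ∀ (K : Type) [Field K] [Algebra F K] (q : κ ⊕ lam → K), T.Ok (Sum.elim s s') q →
      G'.sat q → ∀ j, IsAlgebraic (Algebra.adjoin F (Set.range fun i => q (Sum.inl i)))
        (q (Sum.inr j))) : Good T bp R s G :=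
  Good.proj (D := fun _ => True) h (fun K _ _ y hy hG _ => h1 K y hy hG) h2 h3


end Good

section

variable {F : Type} [Field F] {T : RT F} {ι κ : Type} [Fintype ι] [Fintype κ]

/-- base conditions in bulk -/
theorem FS.of_power [IsAlgClosed F] {n : Type} [Fintype n] {bp : (n → T.S) → Prop} {R : Cond F n}
    (h : ∀ (M : ℕ) (b : Fin M → n → T.S), (∀ i, bp (b i)) →
      FinC T (fun a : Fin M × n => b a.1 a.2) (R.list
      ((List.finRange M).map fun i j => (i, j)))) : FS T bp R (fun i : Empty => i.elim) Cond.top := by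
  classical
  intro ι' _ s' f _ L hL
  have h1 := lemP (T := T) (h L.length (fun i j => s' (L.get i j))
    (fun i => hL _ (List.get_mem L i))) (ZP.SpC.top (T := T) (s := s'))
    ((Finset.univ : Finset (Fin L.length × n)).toList.map fun a =>
      (Sum.inl a, Sum.inr (L.get a.1 a.2))) (by
      intro e he
      obtain ⟨a, -, rfl⟩ := List.mem_map.1 he
      rfl)
  have h2 := ZP.FinC.reindex h1 (Equiv.sumComm _ _) (Sum.elim s' fun a : Fin L.length × n => s' (L.get a.1 a.2))
    (by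
      rintro (a | i) <;> rfl)
  refine ZP.FinR.proj h2 ?_ ?_ ?_
  · rintro K _ _ y hy ⟨-, h3⟩ -
    refine ⟨K, inferInstance, inferInstance, Sum.elim y (fun a => y (L.get a.1 a.2)), ?_, ?_,
      Sp.refl _, Sp.refl _⟩
    · rintro (i | a) hj
      · exact hy i hj
      · refine hy.pull (s' := fun a : Fin L.length × n => s' (L.get a.1 a.2))
          (fun a => L.get a.1 a.2) (fun a => rfl) a hj
    · refine ⟨⟨?_, trivial⟩, ?_⟩
      · intro e he
        obtain ⟨i, -, rfl⟩ := List.mem_map.1 he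
        exact h3 _ (List.get_mem L i)
      · intro e he
        obtain ⟨a, -, rfl⟩ := List.mem_map.1 he
        rfl
  · rintro K L' _ _ _ _ q z ⟨⟨h4, -⟩, h5⟩ - - -
    refine ⟨trivial, ?_⟩
    intro e he
    obtain ⟨i, rfl⟩ := List.get_of_mem he
    have h6 := h4 (fun j => (i, j)) (List.mem_map.2 ⟨i, List.mem_finRange i, rfl⟩)
    have h7 : (fun j => q (Sum.inl (L.get i j))) = fun j => q (Sum.inr (i, j)) := by
      funext j
      exact (h5 (Sum.inl (i, j), Sum.inr (L.get i j)) (List.mem_map.2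
        ⟨(i, j), Finset.mem_toList.2 (Finset.mem_univ _), rfl⟩)).symm
    change R.sat (fun j => q (Sum.inl (L.get i j)))
    rw [h7]
    exact h6
  · rintro K _ _ q - ⟨-, h5⟩ a
    have h6 : q (Sum.inr a) = q (Sum.inl (L.get a.1 a.2)) :=
      h5 (Sum.inl a, Sum.inr (L.get a.1 a.2)) (List.mem_map.2
        ⟨a, Finset.mem_toList.2 (Finset.mem_univ _), rfl⟩)
    rw [h6]
    exact alg_range (F := F) (fun i => q (Sum.inl i)) _

theorem FS.finC {n : Type} {bp : (n → T.S) → Prop} {R : Cond F n}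
    (h : FS T bp R (fun i : Empty => i.elim) Cond.top) {s : ι → T.S} {C : Cond F ι}
    (hC : Good T bp R s C) : FinC T s C := by
  have h1 : FS T bp R s Cond.top := h.comap s (fun i => i.elim) (fun i => i.elim)
  have h2 := hC ι s _ h1 id (fun _ => rfl)
  have h3 := h2 ι s id (fun _ => rfl) [] (by simp)
  refine ZP.FinR.congr h3 ?_ (fun _ _ _ _ _ _ _ => trivial)
  intro K _ _ y _
  constructor
  · intro h4
    exact ⟨⟨trivial, h4⟩, fun e he => by simp at he⟩
  · rintro ⟨⟨-, h4⟩, -⟩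
    exact h4


end

end Pool.Agent.N113.EC
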