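import Pool.Agent.N113.EC.ERT
import Pool.Agent.N113.EC.Good
import Pool.Agent.N101.ZP.XPoly

/-!
# Systems of polynomial equations from the surfaces `u (P) + u (Q) + u (R) = 0`
-/

set_option autoImplicit false
set_option linter.unusedSectionVars false
set_option linter.style.haveILetI false
set_option linter.unusedSimpArgs false

namespace Pool.Agent.N113.EC

open Pool.Agent.N101
open Pool.Agent.N101.ZP (Sp PP Nz RT Cond FinR FinC SpC)
open MvPolynomial

section

variable {F : Type} [Field F] {κ lam : Type}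

/-- the surface -/
noncomputable def sumC (F : Type) [Field F] : Cond F (Fin 3) where
  sat y := y 0 + y 1 + y 2 = 0
  closed p p' h hp := by
    have h1 := h (X 0 + X 1 + X 2) (by
      rw [map_add, map_add, aeval_X, aeval_X, aeval_X, hp])
    rwa [map_add, map_add, aeval_X, aeval_X, aeval_X] at h1

/-- conjunction of a finite family -/
def allC (G : lam → Cond F κ) : Cond F κ :=
  ⟨fun y => ∀ j, (G j).sat y, fun p p' h hp j => (G j).closed p p' h (hp j)⟩

/-- the graph of a polynomial -/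
noncomputable def graph (G : MvPolynomial κ F) : Cond F (Option κ) where
  sat z := z none = aeval (fun i => z (some i)) G
  closed p p' h hp := by
    have h1 := h (X none - rename some G) (by
      rw [map_sub, aeval_X, aeval_rename, hp]
      exact sub_self _)
    rw [map_sub, aeval_X, aeval_rename] at h1
    exact sub_eq_zero.1 h1

theorem sat_graph {K : Type} [Field K] [Algebra F K] (G : MvPolynomial κ F) (y : Option κ → K) :
    (graph G).sat y ↔ y none = aeval (fun i => y (some i)) G := Iff.rfl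

theorem sat_pol {K : Type} [Field K] [Algebra F K] (H : MvPolynomial κ F) (y : κ → K) :
    (Cond.pols [H]).sat y ↔ aeval y H = 0 := by
  constructor
  · intro h
    exact h _ List.mem_cons_self
  · intro h f hf
    rw [List.mem_singleton] at hf
    rw [hf]
    exact h

end

variable {F : Type} [Field F] [CharZero F] [IsAlgClosed F] {J : Type} (E : J → Cv F) (j₀ : J)

/-- the sorts of the base conditions -/
def bp (b : Fin 3 → J) : Prop := b 0 = j₀ ∧ b 1 = j₀

/-- conditions which may be added to systems -/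
def SG {κ : Type} (s : κ → J) (G : Cond F κ) : Prop := Good (RTh E) (bp j₀) (sumC F) s G

/-- conditions for the points which satisfy `D` -/
def SGR {κ : Type} (s : κ → J) (D : ∀ {K : Type} [Field K] [Algebra F K], (κ → K) → Prop)
    (G : Cond F κ) : Prop := GoodR (RTh E) (bp j₀) (sumC F) s D G

section

variable {E} {j₀} {κ lam : Type}

theorem SG.comap {s : κ → J} {G : Cond F κ} (h : SG E j₀ s G) (s' : lam → J) (f : κ → lam)
    (hf : ∀ i, s' (f i) = s i) : SG E j₀ s' (G.comap f) :=
  Good.comap h _ f hf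

theorem SG.and {s : κ → J} {G G' : Cond F κ} (h : SG E j₀ s G) (h' : SG E j₀ s G') :
    SG E j₀ s (G.and G') := Good.and h h'

theorem SG.congr {s : κ → J} {G G' : Cond F κ} (h : SG E j₀ s G)
    (h1 : ∀ (K : Type) [Field K] [Algebra F K] (y : κ → K), (G'.sat y ↔ G.sat y)) :
    SG E j₀ s G' :=
  Good.congr h (fun K _ _ y _ => h1 K y)

theorem SG.top {s : κ → J} : SG E j₀ s (Cond.top : Cond F κ) := by
  intro ι _ s' C hC e he ι' _ s'' f hf L hL
  refine ZP.FinR.congr (hC ι' s'' f hf L hL) ?_ (fun K _ _ y _ _ _ => trivial)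
  intro K _ _ y _
  constructor
  · rintro ⟨⟨h1, -⟩, h2⟩
    exact ⟨h1, h2⟩
  · rintro ⟨h1, h2⟩
    exact ⟨⟨h1, trivial⟩, h2⟩

theorem SG.sum (k : J) : SG E j₀ ![j₀, j₀, k] (sumC F) := Good.base ⟨rfl, rfl⟩

theorem SG.of_spC [Fintype κ] {s : κ → J} {G : Cond F κ} (h : SpC (RTh E) s G) : SG E j₀ s G :=
  Good.of_spC h

theorem SG.all {s : κ → J} [Fintype lam] {G : lam → Cond F κ} (h : ∀ j, SG E j₀ s (G j)) :
    SG E j₀ s (allC G) := by
  classical
  have key : ∀ t : Finset lam, SG E j₀ s (⟨fun y => ∀ j ∈ t, (G j).sat y,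
      fun p p' h hp j hj => (G j).closed p p' h (hp j hj)⟩ : Cond F κ) := by
    intro t
    induction t using Finset.induction_on with
    | empty => exact SG.top.congr fun K _ _ y => by simp [Cond.top]
    | insert a t _ ih =>
      refine ((h a).and ih).congr fun K _ _ y => ?_
      simp [Cond.and]
  exact (key Finset.univ).congr fun K _ _ y => by simp [allC]

/-- conditions on some of the points of a condition -/
theorem SGR.of_stronger {s : κ → J} {G G' : Cond F κ}
    {D : ∀ {K : Type} [Field K] [Algebra F K], (κ → K) → Prop} (h : SG E j₀ s G')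
    (h1 : ∀ (K L : Type) [Field K] [Algebra F K] [Field L] [Algebra F L] (q : κ → K)
      (z : κ → L), G'.sat q → Sp F q z → G.sat z → G.sat q)
    (h2 : ∀ (K : Type) [Field K] [Algebra F K] (y : κ → K), G.sat y → D y → G'.sat y) :
    SGR E j₀ s D G := by
  have h' := Good.comap h (Sum.elim s (fun i : Empty => i.elim)) Sum.inl (fun _ => rfl)
  refine Good.proj (T := RTh E) (s := s) (s' := fun i : Empty => i.elim) h' ?_ ?_ ?_
  · intro K _ _ y _ hG hD
    exact ⟨K, inferInstance, inferInstance, AlgHom.id F K, fun i => i.elim,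
      fun i => i.elim, h2 K y hG hD⟩
  · intro K L _ _ _ _ q z hq hqz _ hz
    exact h1 K L _ _ hq (hqz.comp Sum.inl) hz
  · intro K _ _ q _ _ j
    exact j.elim

theorem SGR.union {s : κ → J}
    {D D₁ D₂ : ∀ {K : Type} [Field K] [Algebra F K], (κ → K) → Prop}
    {G : Cond F κ} (h₁ : SGR E j₀ s D₁ G) (h₂ : SGR E j₀ s D₂ G)
    (h : ∀ (K : Type) [Field K] [Algebra F K] (y : κ → K), D y → D₁ y ∨ D₂ y) :
    SGR E j₀ s D G :=
  GoodR.union h₁ h₂ (fun K _ _ y _ _ hD => h K y hD)

/-- elimination of auxiliary coordinates -/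
theorem SGR.proj [Fintype lam] {s : κ → J} {s' : lam → J} {G : Cond F κ}
    {G' : Cond F (κ ⊕ lam)}
    {D : ∀ {K : Type} [Field K] [Algebra F K], (κ → K) → Prop} (h : SG E j₀ (Sum.elim s s') G')
    (h1 : ∀ (K : Type) [Field K] [Algebra F K] (y : κ → K), G.sat y → D y →
      ∃ t : lam → K, G'.sat (Sum.elim y t))
    (h2 : ∀ (K : Type) [Field K] [Algebra F K] (q : κ ⊕ lam → K), G'.sat q →
      G.sat (fun i => q (Sum.inl i)))
    (h3 : ∀ (K : Type) [Field K] [Algebra F K] (q : κ ⊕ lam → K), G'.sat q → ∀ j,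
      IsAlgebraic (Algebra.adjoin F (Set.range fun i => q (Sum.inl i))) (q (Sum.inr j))) :
    SGR E j₀ s D G := by
  refine Good.proj (T := RTh E) (s := s) (s' := s') h ?_ ?_ ?_
  · intro K _ _ y _ hG hD
    obtain ⟨t, ht⟩ := h1 K y hG hD
    exact ⟨K, inferInstance, inferInstance, AlgHom.id F K, t, okr E _ _, ht⟩
  · intro K L _ _ _ _ q z hq _ _ _
    exact h2 K q hq
  · intro K _ _ q _ hq j
    exact h3 K q hq j

/-- elimination of auxiliary coordinates which are polynomials in the others -/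
theorem SG.elim [Fintype lam] {s : κ → J} {s' : lam → J} {G : Cond F κ} {G' : Cond F (κ ⊕ lam)}
    (h : SG E j₀ (Sum.elim s s') G') (t : lam → MvPolynomial κ F)
    (h1 : ∀ (K : Type) [Field K] [Algebra F K] (z : κ ⊕ lam → K), G'.sat z → ∀ j,
      z (Sum.inr j) = aeval (fun i => z (Sum.inl i)) (t j))
    (h2 : ∀ (K : Type) [Field K] [Algebra F K] (y : κ → K), G.sat y →
      G'.sat (Sum.elim y (fun j => aeval y (t j))))
    (h3 : ∀ (K : Type) [Field K] [Algebra F K] (z : κ ⊕ lam → K), G'.sat z →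
      G.sat (fun i => z (Sum.inl i))) : SG E j₀ s G := by
  refine SGR.proj (D := fun _ => True) h (fun K _ _ y hy _ => ⟨_, h2 K y hy⟩) h3 ?_
  intro K _ _ q hq j
  rw [h1 K q hq j]
  refine isAlgebraic_algebraMap (A := K)
    (⟨_, ?_⟩ : Algebra.adjoin F (Set.range fun i => q (Sum.inl i)))
  rw [Algebra.adjoin_range_eq_range_aeval]
  exact ⟨t j, rfl⟩

/-- the condition that a coordinate vanishes -/
def zeroC (F : Type) [Field F] : Cond F Unit := ⟨fun y => y () = 0, fun _ _ h hp => h.zero hp⟩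

theorem SG.zero (k : J) : SG E j₀ (fun _ => k) (zeroC F) := by
  refine ((SG.of_spC (spC_zero k)).comap (fun _ : Unit => k) (fun _ : Fin 1 => ())
    (fun _ => rfl)).congr fun K _ _ y => ?_
  change y () = 0 ↔ ∀ f ∈ [(X 0 - C 0 : MvPolynomial (Fin 1) F)], aeval (fun j => y ()) f = 0
  simp

/-- the condition that two coordinates are opposite -/
noncomputable def negC (F : Type) [Field F] : Cond F (Fin 2) where
  sat y := y 0 + y 1 = 0
  closed p p' h hp := by
    have h1 := h (X 0 + X 1) (by rw [map_add, aeval_X, aeval_X, hp])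
    rwa [map_add, aeval_X, aeval_X] at h1

/-- the condition that two coordinates are equal -/
def eqC (F : Type) [Field F] : Cond F (Fin 2) where
  sat y := y 0 = y 1
  closed _ _ h hp := h.eq hp

/-- opposite coordinates -/
theorem SG.neg (k : J) : SG E j₀ ![j₀, k] (negC F) := by
  let G' : Cond F (Fin 2 ⊕ Unit) :=
    ((sumC F).comap (![Sum.inl 0, Sum.inr (), Sum.inl 1] : Fin 3 → Fin 2 ⊕ Unit)).and
      ((zeroC F).comap Sum.inr)
  have hG' : SG E j₀ (Sum.elim ![j₀, k] (fun _ => j₀)) G' := by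
    refine ((SG.sum k).comap _ _ fun i => ?_).and ((SG.zero j₀).comap _ _ fun _ => rfl)
    fin_cases i <;> rfl
  have key : ∀ (K : Type) [Field K] [Algebra F K] (z : Fin 2 ⊕ Unit → K), G'.sat z ↔
      z (Sum.inl 0) + z (Sum.inr ()) + z (Sum.inl 1) = 0 ∧ z (Sum.inr ()) = 0 :=
    fun K _ _ z => Iff.rfl
  refine SG.elim hG' (fun _ => 0) ?_ ?_ ?_
  · intro K _ _ z hz j
    rw [map_zero]
    exact ((key K z).1 hz).2
  · intro K _ _ y hy
    rw [key]
    have hy' : y 0 + y 1 = 0 := hy
    simp only [Sum.elim_inl, Sum.elim_inr, map_zero, add_zero]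
    exact ⟨hy', trivial⟩
  · intro K _ _ z hz
    obtain ⟨h1, h2⟩ := (key K z).1 hz
    change z (Sum.inl 0) + z (Sum.inl 1) = 0
    rwa [h2, add_zero] at h1

/-- equal coordinates -/
theorem SG.eq (k : J) : SG E j₀ ![j₀, k] (eqC F) := by
  let G' : Cond F (Fin 2 ⊕ Unit) :=
    ((negC F).comap (![Sum.inl 0, Sum.inr ()] : Fin 2 → Fin 2 ⊕ Unit)).and
      ((negC F).comap (![Sum.inr (), Sum.inl 1] : Fin 2 → Fin 2 ⊕ Unit))
  have hG' : SG E j₀ (Sum.elim ![j₀, k] (fun _ => j₀)) G' := by
    refine ((SG.neg j₀).comap _ _ fun i => ?_).and ((SG.neg k).comap _ _ fun i => ?_)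
    · fin_cases i <;> rfl
    · fin_cases i <;> rfl
  have key : ∀ (K : Type) [Field K] [Algebra F K] (z : Fin 2 ⊕ Unit → K), G'.sat z ↔
      z (Sum.inl 0) + z (Sum.inr ()) = 0 ∧ z (Sum.inr ()) + z (Sum.inl 1) = 0 :=
    fun K _ _ z => Iff.rfl
  refine SG.elim hG' (fun _ => -X 0) ?_ ?_ ?_
  · intro K _ _ z hz j
    rw [map_neg, aeval_X]
    obtain ⟨h1, h2⟩ := (key K z).1 hz
    linear_combination h1
  · intro K _ _ y hy
    rw [key]
    have hy' : y 0 = y 1 := hy
    simp only [Sum.elim_inl, Sum.elim_inr, map_neg, aeval_X]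
    exact ⟨add_neg_cancel _, by rw [hy', neg_add_cancel]⟩
  · intro K _ _ z hz
    obtain ⟨h1, h2⟩ := (key K z).1 hz
    change z (Sum.inl 0) = z (Sum.inl 1)
    linear_combination h1 - h2

variable (E j₀) in
/-- computable polynomials -/
def SP (G : MvPolynomial κ F) : Prop := SG E j₀ (fun _ => j₀) (graph G)

theorem SP.comp [Fintype lam] {H : MvPolynomial lam F} (hH : SP E j₀ H)
    {Gs : lam → MvPolynomial κ F} (h : ∀ j, SP E j₀ (Gs j)) : SP E j₀ (bind₁ Gs H) := by
  let G' : Cond F (Option κ ⊕ lam) :=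
    (allC fun j => (graph (Gs j)).comap (fun i => i.elim (Sum.inr j) (fun i => Sum.inl (some i)))).and
      ((graph H).comap (fun i => i.elim (Sum.inl none) Sum.inr))
  have hG'' : SG E j₀ (fun _ => j₀) G' := SG.and (SG.all fun j => SG.comap (h j) _ _ fun _ => rfl)
    (SG.comap hH _ _ fun _ => rfl)
  have hG' : SG E j₀ (Sum.elim (fun _ => j₀) (fun _ => j₀)) G' := by
    have : (Sum.elim (fun _ => j₀) (fun _ => j₀) : Option κ ⊕ lam → J) = fun _ => j₀ := by
      funext x
      rcases x with x | x <;> rfl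
    rw [this]
    exact hG''
  have key : ∀ (K : Type) [Field K] [Algebra F K] (z : Option κ ⊕ lam → K), G'.sat z ↔
      (∀ j, z (Sum.inr j) = aeval (fun i => z (Sum.inl (some i))) (Gs j)) ∧
      z (Sum.inl none) = aeval (fun j => z (Sum.inr j)) H := fun K _ _ z => Iff.rfl
  have hb : ∀ (K : Type) [Field K] [Algebra F K] (y : κ → K),
      aeval y (bind₁ Gs H) = aeval (fun j => aeval y (Gs j)) H := by
    intro K _ _ y
    exact aeval_bind₁ y Gs H
  refine SG.elim hG' (fun j => rename some (Gs j)) ?_ ?_ ?_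
  · intro K _ _ z hz j
    rw [aeval_rename]
    exact ((key K z).1 hz).1 j
  · intro K _ _ y hy
    rw [key]
    have hy' : y none = aeval (fun i => y (some i)) (bind₁ Gs H) := hy
    rw [hb] at hy'
    refine ⟨fun j => ?_, ?_⟩
    · change aeval y (rename some (Gs j)) = _
      rw [aeval_rename]
      rfl
    · change y none = aeval (fun j => aeval y (rename some (Gs j))) H
      rw [hy']
      congr 1
      congr 1
      funext j
      rw [aeval_rename]
      rfl
  · intro K _ _ z hz
    obtain ⟨h1, h2⟩ := (key K z).1 hz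
    change z (Sum.inl none) = aeval (fun i => z (Sum.inl (some i))) _
    rw [hb, h2]
    congr 1
    congr 1
    funext j
    exact h1 j

theorem SP.congr {G G' : MvPolynomial κ F} (h : SP E j₀ G) (he : G' = G) : SP E j₀ G' := by
  rw [he]
  exact h

theorem SP.X (i : κ) : SP E j₀ (X i : MvPolynomial κ F) := by
  refine ((SG.eq j₀).comap (fun _ => j₀) (![none, some i] : Fin 2 → Option κ)
    (fun i => by fin_cases i <;> rfl)).congr fun K _ _ y => ?_
  change y none = aeval (fun i => y (some i)) (MvPolynomial.X i) ↔ y none = y (some i)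
  rw [aeval_X]

theorem SP.const {c : F}
    (h : SG E j₀ (fun _ => j₀) (Cond.pols [MvPolynomial.X 0 - C c] : Cond F (Fin 1))) :
    SP E j₀ (C c : MvPolynomial κ F) := by
  refine (h.comap (fun _ => j₀) (fun j : Fin 1 => none) (fun _ => rfl)).congr fun K _ _ y => ?_
  change y none = aeval (fun i => y (some i)) (C c) ↔
    ∀ f ∈ [(MvPolynomial.X 0 - C c : MvPolynomial (Fin 1) F)], aeval (fun j => y none) f = 0
  simp [sub_eq_zero]

theorem SP.zero : SP E j₀ (0 : MvPolynomial κ F) :=
  (SP.const (SG.of_spC (spC_zero j₀))).congr C_0.symm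

/-- constants which are values at points of order two of one of the curves -/
theorem SP.const' {k : J} {c : F}
    (h : SG E j₀ (fun _ => k) (Cond.pols [MvPolynomial.X 0 - C c] : Cond F (Fin 1))) :
    SP E j₀ (C c : MvPolynomial κ F) := by
  refine SP.const ?_
  let G' : Cond F (Fin 1 ⊕ Unit) :=
    ((eqC F).comap (![Sum.inl 0, Sum.inr ()] : Fin 2 → Fin 1 ⊕ Unit)).and
      ((Cond.pols [MvPolynomial.X 0 - C c]).comap (fun _ : Fin 1 => Sum.inr ()))
  have hG' : SG E j₀ (Sum.elim (fun _ : Fin 1 => j₀) (fun _ : Unit => k)) G' := by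
    refine ((SG.eq k).comap _ _ fun i => ?_).and (h.comap _ _ fun _ => rfl)
    fin_cases i <;> rfl
  have hp : ∀ (K : Type) [Field K] [Algebra F K] (y : Fin 1 → K),
      (Cond.pols [MvPolynomial.X 0 - C c]).sat y ↔ y 0 = algebraMap F K c := by
    intro K _ _ y
    rw [sat_pol, map_sub, aeval_X, aeval_C, sub_eq_zero]
  have key : ∀ (K : Type) [Field K] [Algebra F K] (z : Fin 1 ⊕ Unit → K), G'.sat z ↔
      z (Sum.inl 0) = z (Sum.inr ()) ∧ z (Sum.inr ()) = algebraMap F K c := by
    intro K _ _ z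
    exact and_congr Iff.rfl (hp K (fun _ => z (Sum.inr ())))
  refine SG.elim hG' (fun _ => C c) ?_ ?_ ?_
  · intro K _ _ z hz j
    rw [aeval_C]
    exact ((key K z).1 hz).2
  · intro K _ _ y hy
    rw [key]
    simp only [Sum.elim_inl, Sum.elim_inr, aeval_C]
    exact ⟨(hp K y).1 hy, trivial⟩
  · intro K _ _ z hz
    obtain ⟨h1, h2⟩ := (key K z).1 hz
    rw [hp]
    exact h1.trans h2

theorem SP.al (k : J) : SP E j₀ (C (E k).al : MvPolynomial κ F) :=
  SP.const' (SG.of_spC (spC_al k))

theorem SP.be (k : J) : SP E j₀ (C (E k).be : MvPolynomial κ F) :=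
  SP.const' (SG.of_spC (spC_be k))

/-- minus the sum -/
theorem SP.nsum : SP E j₀ (-(MvPolynomial.X 0 + MvPolynomial.X 1) : MvPolynomial (Fin 2) F) := by
  refine ((SG.sum j₀).comap (fun _ => j₀) (![some 0, some 1, none] : Fin 3 → Option (Fin 2))
    (fun i => by fin_cases i <;> rfl)).congr fun K _ _ y => ?_
  change y none = aeval (fun i => y (some i)) (-(MvPolynomial.X 0 + MvPolynomial.X 1)) ↔
    y (some 0) + y (some 1) + y none = 0
  rw [map_neg, map_add, aeval_X, aeval_X]
  constructor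
  · intro h
    rw [h]
    ring
  · intro h
    linear_combination h

theorem SP.neg0 : SP E j₀ (-MvPolynomial.X 0 : MvPolynomial (Fin 1) F) := by
  refine ((SG.neg j₀).comap (fun _ => j₀) (![none, some 0] : Fin 2 → Option (Fin 1))
    (fun i => by fin_cases i <;> rfl)).congr fun K _ _ y => ?_
  change y none = aeval (fun i => y (some i)) (-MvPolynomial.X 0) ↔ y none + y (some 0) = 0
  rw [map_neg, aeval_X]
  exact eq_neg_iff_add_eq_zero

theorem SP.neg {G : MvPolynomial κ F} (h : SP E j₀ G) : SP E j₀ (-G) := by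
  refine (SP.comp SP.neg0 (Gs := fun _ => G) (fun _ => h)).congr ?_
  simp

theorem SP.add {G G' : MvPolynomial κ F} (h : SP E j₀ G) (h' : SP E j₀ G') :
    SP E j₀ (G + G') := by
  refine (SP.neg (SP.comp SP.nsum (Gs := ![G, G']) (by
    intro j
    fin_cases j
    · exact h
    · exact h'))).congr ?_
  simp [add_comm]

theorem SP.sub {G G' : MvPolynomial κ F} (h : SP E j₀ G) (h' : SP E j₀ G') :
    SP E j₀ (G - G') :=
  (h.add h'.neg).congr (by ring)

theorem SP.natMul {G : MvPolynomial κ F} (h : SP E j₀ G) (n : ℕ) :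
    SP E j₀ ((n : MvPolynomial κ F) * G) := by
  induction n with
  | zero => exact SP.zero.congr (by simp)
  | succ n ih => exact (ih.add h).congr (by push_cast; ring)

/-- the vanishing of a computable polynomial -/
theorem SP.van {H : MvPolynomial κ F} (hH : SP E j₀ H) :
    SG E j₀ (fun _ => j₀) (Cond.pols [H]) := by
  let G' : Cond F (κ ⊕ Unit) := ((graph H).comap (fun i => i.elim (Sum.inr ()) Sum.inl)).and
    ((zeroC F).comap Sum.inr)
  have key : ∀ (K : Type) [Field K] [Algebra F K] (z : κ ⊕ Unit → K), G'.sat z ↔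
      z (Sum.inr ()) = aeval (fun i => z (Sum.inl i)) H ∧ z (Sum.inr ()) = 0 :=
    fun K _ _ z => Iff.rfl
  have hG' : SG E j₀ (Sum.elim (fun _ => j₀) (fun _ => j₀)) G' := by
    have : (Sum.elim (fun _ => j₀) (fun _ => j₀) : κ ⊕ Unit → J) = fun _ => j₀ := by
      funext x
      rcases x with x | x <;> rfl
    rw [this]
    exact (SG.comap hH _ _ fun _ => rfl).and ((SG.zero j₀).comap _ _ fun _ => rfl)
  refine SG.elim hG' (fun _ => H) ?_ ?_ ?_
  · intro K _ _ z hz _
    exact ((key K z).1 hz).1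
  · intro K _ _ y hy
    rw [key]
    exact ⟨rfl, hy _ List.mem_cons_self⟩
  · intro K _ _ z hz
    obtain ⟨h1, h2⟩ := (key K z).1 hz
    rw [h2] at h1
    rw [sat_pol]
    exact h1.symm

end

end Pool.Agent.N113.EC
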