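import Pool.Agent.N113.EC.Sq
import Pool.Agent.N101.ZP.Desc

/-!
# Passage to larger fields, for equations with coefficients in `F`

(A version of `Pool.Agent.N101.ZP.fin_gen'` without the hypothesis that `F` is algebraic over the
integers.)
-/

set_option autoImplicit false
set_option linter.unusedSectionVars false
set_option linter.style.haveILetI false

namespace Pool.Agent.N113.EC

open MvPolynomial Pool.Agent.R948
open Pool.Agent.N101.ZP

section

variable {F : Type} [Field F] {ι κ : Type} [Fintype ι] [Fintype κ]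

/-- the system of equations of a finite set of polynomials -/
theorem exists_sysF (F : Type) [Field F] {k : Type} [Field k]
    [Algebra F k] (s : Finset (MvPolynomial ι k)) :
    ∃ (κ : Type) (_ : Fintype κ) (c : κ → k) (LL : List (MvPolynomial (ι ⊕ κ) F)),
      (∀ (K₀ : Type) [Field K₀] [Algebra k K₀] [Algebra F K₀] [IsScalarTower F k K₀]
        (x₀ : ι → K₀), (∀ f ∈ s, aeval x₀ f = 0) →
        ∀ H ∈ LL, aeval (Sum.elim x₀ (fun j => algebraMap k K₀ (c j))) H = 0) ∧
      ∀ (L : Type) [Field L] [Algebra F L] (q : ι ⊕ κ → L), (∀ H ∈ LL, aeval q H = 0) →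
        (∀ f ∈ s, ∃ g : MvPolynomial (ι ⊕ κ) F, phi' F ι c g = f ∧ aeval q g = 0) ∧
        Sp F c (fun j => q (Sum.inr j)) := by
  classical
  -- the coefficients
  let T : Finset k := s.biUnion fun f => f.support.image fun m => f.coeff m
  let c : T → k := fun a => a.1
  have hlift : ∀ f ∈ s, ∃ H : MvPolynomial (ι ⊕ T) F, phi' F ι c H = f := by
    intro f hf
    have hX : ∀ i : ι, (X i : MvPolynomial ι k) ∈ (phi' F ι c).range := fun i =>
      ⟨X (Sum.inl i), by simp [phi']⟩
    have hC : ∀ a : T, (C (a : k) : MvPolynomial ι k) ∈ (phi' F ι c).range := fun a =>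
      ⟨X (Sum.inr a), by simp [phi', c]⟩
    have h1 : f ∈ (phi' F ι c).range := by
      rw [f.as_sum]
      refine Subalgebra.sum_mem _ fun m hm => ?_
      rw [monomial_eq]
      refine Subalgebra.mul_mem _ ?_ ?_
      · exact hC ⟨f.coeff m, Finset.mem_biUnion.2 ⟨f, hf, Finset.mem_image.2 ⟨m, hm, rfl⟩⟩⟩
      · exact Subalgebra.prod_mem _ fun i _ => Subalgebra.pow_mem _ (hX i) _
    exact h1
  choose! H hH using hlift
  -- the relations of the coefficients
  obtain ⟨s', hs'⟩ := (RingHom.ker (aeval c : MvPolynomial T F →ₐ[F] k)).fg_of_isNoetherianRing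
  obtain ⟨LL, hLL⟩ : ∃ LL : List (MvPolynomial (ι ⊕ T) F),
    LL = s.toList.map H ++ s'.toList.map (rename Sum.inr) := ⟨_, rfl⟩
  refine ⟨T, inferInstance, c, LL, ?_, ?_⟩
  · intro K₀ _ _ _ _ x₀ hx₀ G hG
    rw [hLL] at hG
    rcases List.mem_append.1 hG with hG | hG
    · obtain ⟨f, hf, rfl⟩ := List.mem_map.1 hG
      have h1 := aeval_phi' (R := F) c x₀ (H f)
      rw [hH f (Finset.mem_toList.1 hf)] at h1
      rw [← h1]
      exact hx₀ f (Finset.mem_toList.1 hf)
    · obtain ⟨f, hf, rfl⟩ := List.mem_map.1 hG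
      have h1 : f ∈ RingHom.ker (aeval c : MvPolynomial T F →ₐ[F] k) := by
        rw [← hs']
        exact Ideal.subset_span (Finset.mem_toList.1 hf)
      rw [aeval_rename]
      have h2 : Sum.elim x₀ (fun j => algebraMap k K₀ (c j)) ∘ Sum.inr =
        fun j => algebraMap k K₀ (c j) := rfl
      have h3 : aeval (fun j => algebraMap k K₀ (c j)) f =
          algebraMap k K₀ (aeval c f) := aeval_algebraMap_apply _ _ _
      have h4 : aeval c f = 0 := h1
      rw [h2, h3, h4, map_zero]
  · intro L _ _ q h3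
    refine ⟨fun f hf => ⟨H f, hH f hf, ?_⟩, fun G hG => ?_⟩
    · exact h3 (H f) (by
        rw [hLL]
        exact List.mem_append_left _ (List.mem_map.2 ⟨f, Finset.mem_toList.2 hf, rfl⟩))
    · have h5 : G ∈ RingHom.ker (aeval c : MvPolynomial T F →ₐ[F] k) := hG
      rw [← hs'] at h5
      refine Submodule.span_induction (p := fun f _ =>
        aeval (fun j => q (Sum.inr j)) f = 0) ?_ ?_ ?_ ?_ h5
      · intro f hf
        have h6 := h3 (rename Sum.inr f) (by
          rw [hLL]
          exact List.mem_append_right _ (List.mem_map.2 ⟨f, Finset.mem_toList.2 hf, rfl⟩))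
        rw [aeval_rename] at h6
        exact h6
      · exact map_zero _
      · intro a b _ _ ha hb
        rw [map_add, ha, hb, add_zero]
      · intro a b _ hb
        rw [smul_eq_mul, map_mul, hb, mul_zero]

variable {T : RT F}

/-- **Finiteness over all fields.** -/
theorem fin_genF [IsAlgClosed F] [CharZero F] (σ₀ : T.S)
    (hσ : ¬ T.nz σ₀) (hF : ∀ (ι : Type) [Fintype ι] (s : ι → T.S) (LL : List (MvPolynomial ι F)),
      FinC T s (Cond.pols LL)) {k : Type} [Field k] [Algebra F k] (s : ι → T.S)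
    (I : Ideal (MvPolynomial ι k)) : FinI T k s I := by
  obtain ⟨g, hg⟩ := I.fg_of_isNoetherianRing
  obtain ⟨κ, _, c, LL, hS1, hS2⟩ := exists_sysF F g
  obtain ⟨B, hB, hB2⟩ := hF (ι ⊕ κ) (Sum.elim s (fun _ => σ₀)) LL
  refine ⟨⋃ J ∈ B, {P : PP k ι | P.I ∈ (Ideal.map (phi' F ι c) J.I).minimalPrimes},
    hB.biUnion fun J _ => finite_PP (Ideal.finite_minimalPrimes_of_isNoetherianRing _ _), ?_⟩
  intro Q₀ hok hQ₀
  have hy := hS1 Q₀.fld Q₀.pt (fun f hf => by
    rw [PP.aeval_pt_eq_zero]
    exact hQ₀ (by rw [← hg]; exact Ideal.subset_span hf))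
  have hok' : T.Ok (Sum.elim s (fun _ => σ₀))
      (Sum.elim Q₀.pt (fun j => algebraMap k Q₀.fld (c j))) := by
    rintro (i | j) hj
    · exact hok i hj
    · exact absurd hj hσ
  obtain ⟨Q, h1, h2, h3, h4⟩ := hB2 Q₀.fld _ hok' hy trivial
  obtain ⟨h5, h6⟩ := hS2 Q.fld Q.pt h3
  -- the coefficients have the same relations
  have hsc : Sp F (fun j => Q.pt (Sum.inr j)) c := by
    intro f hf
    have h5 := h2 (rename Sum.inr f) (by rw [aeval_rename]; exact hf)
    rw [aeval_rename] at h5
    have h6 : Sum.elim Q₀.pt (fun j => algebraMap k Q₀.fld (c j)) ∘ Sum.inr =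
      fun j => algebraMap k Q₀.fld (c j) := rfl
    have h7 : aeval (fun j => algebraMap k Q₀.fld (c j)) f =
          algebraMap k Q₀.fld (aeval c f) := aeval_algebraMap_apply _ _ _
    rw [h6, h7, map_eq_zero_iff _ (algebraMap k Q₀.fld).injective] at h5
    exact h5
  -- the ideal
  have hJ : Ideal.map (phi' F ι c) Q.I ≤ Q₀.I := by
    rw [Ideal.map_le_iff_le_comap]
    intro g hg
    rw [Ideal.mem_comap, ← PP.aeval_pt_eq_zero, aeval_phi']
    exact h2 g ((PP.aeval_pt_eq_zero Q g).2 hg)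
  have hI : I ≤ Ideal.map (phi' F ι c) Q.I := by
    rw [← hg, Ideal.span_le]
    intro f hf
    obtain ⟨g, hg, hg2⟩ := h5 f hf
    rw [← hg]
    exact Ideal.mem_map_of_mem _ ((PP.aeval_pt_eq_zero Q g).1 hg2)
  obtain ⟨b, hb, hbQ₀⟩ := Ideal.exists_minimalPrimes_le hJ
  obtain ⟨P, rfl⟩ : ∃ P : PP k ι, P.I = b := ⟨⟨b, hb.1.1⟩, rfl⟩
  refine ⟨P, Set.mem_biUnion h1 hb, hI.trans hb.1.2, hbQ₀, ?_⟩
  exact gen_est' s σ₀ hσ c Q₀.pt hok Q P (PP.sp_of_le hbQ₀) h2 h4 hb
    (dim_main' c Q (fun f => ⟨hsc f, fun h => h6 f h⟩) P.I hb)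

end

/-! ### the main theorem for ideals -/

section

variable {F : Type} [Field F] [CharZero F] [IsAlgClosed F] {J : Type} (E : J → Cv F) (j₀ : J)

/-- the equations of the products of the surfaces -/
noncomputable def sumL (ν : Type) [Fintype ν] : List (MvPolynomial (ν × Fin 3) ℤ) :=
  (Finset.univ : Finset ν).toList.map fun i => X (i, 0) + X (i, 1) + X (i, 2)

/-- the sorts of the coordinates of the products of the surfaces -/
def ssum {ν : Type} (k : ν → J) : ν × Fin 3 → J := fun a => if a.2 = 2 then k a.1 else j₀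

/-- **The main theorem, for ideals.** -/
theorem main_c (hal : (E j₀).al = 1) (halg : Algebra.IsAlgebraic
    (Algebra.adjoin ℤ (Set.range fun j => (E j).al) ⊔
      Algebra.adjoin ℤ (Set.range fun j => (E j).be) : Subalgebra ℤ F) F)
    {k₀ : Type} [Field k₀] [Algebra F k₀]
    (h : ∀ (M : ℕ) (k : Fin M → J), FinC (RTh E) (ssum j₀ k) (polsZ (sumL (Fin M))))
    {ι : Type} [Fintype ι] (s : ι → (RTh E).S) (I : Ideal (MvPolynomial ι k₀)) :
    FinI (RTh E) k₀ s I := by
  refine fin_genF (T := RTh E) j₀ (fun h => h) ?_ s I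
  have h1 : FS (RTh E) (bp j₀) (sumC F) (fun i : Empty => i.elim) Cond.top := by
    refine FS.of_power fun M b hb => ?_
    have h2 := h M fun i => b i 2
    have h3 : (ssum j₀ fun i => b i 2) = fun a : Fin M × Fin 3 => b a.1 a.2 := by
      funext a
      obtain ⟨i, c⟩ := a
      fin_cases c
      · exact (hb i).1.symm
      · exact (hb i).2.symm
      · rfl
    rw [h3] at h2
    refine FinR.congr h2 ?_ (fun _ _ _ _ _ _ _ => trivial)
    intro K _ _ y _
    simp only [Cond.list, sumC, Pool.Agent.N101.ZP.polsZ, sumL, List.mem_map, List.mem_finRange,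
      Finset.mem_toList, Finset.mem_univ, true_and,
      forall_exists_index, forall_apply_eq_imp_iff, map_add, aeval_X]
  intro ι _ s LL
  exact h1.finC (s := s) (SG.pols hal halg s LL)

end

end Pool.Agent.N113.EC
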