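import Pool.Agent.N113.EC.Formulas

/-!
# Places and the reduction of points
-/

set_option autoImplicit false
set_option linter.unusedSectionVars false
set_option linter.style.haveILetI false

namespace Pool.Agent.N113.EC

open Pool.Agent.N101.ZP
open Pool.Agent.H925R3.DC (crv)

/-- places of `K` with values in `k` which are trivial on the algebraic numbers -/
structure Pl (F K k : Type) [Field F] [Field K] [Field k] [Algebra F K] [Algebra F k] where
  O : Subring K
  φ : O →+* k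
  hval : ∀ x : K, x ∈ O ∨ x⁻¹ ∈ O
  hunit : ∀ x : O, φ x ≠ 0 → (x : K)⁻¹ ∈ O
  hF : ∀ c : F, ∃ h : algebraMap F K c ∈ O, φ ⟨_, h⟩ = algebraMap F k c

variable {F : Type} [Field F] [CharZero F] (E : Cv F)

section

variable {K k : Type} [Field K] [Field k] [Algebra F K] [Algebra F k] (π : Pl F K k)

namespace Cv

theorem red_aux (E : Cv F) {K k : Type} [Field K] [Field k] [Algebra F K] [Algebra F k]
    (π : Pl F K k) : ∃ r : E.Pt K →+ E.Pt k, ∀ P : E.Pt K, P ≠ 0 →
    (∀ (hu : E.uu P ∈ π.O), r P ≠ 0 ∧ E.uu (r P) = π.φ ⟨_, hu⟩ ∧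
      ∃ hy : E.yy P ∈ π.O, E.yy (r P) = π.φ ⟨_, hy⟩) ∧
    (E.uu P ∉ π.O → r P = 0) := by
  letI := Classical.decEq K
  letI := Classical.decEq k
  obtain ⟨ha, ha'⟩ := π.hF E.a
  obtain ⟨hb, hb'⟩ := π.hF E.b
  obtain ⟨he, he'⟩ := π.hF E.e
  have hd : 4 * π.φ ⟨_, ha⟩ ^ 3 + 27 * π.φ ⟨_, hb⟩ ^ 2 ≠ 0 := by
    rw [ha', hb']
    exact E.disc_ne' k
  have key : ∀ a' b' : k, π.φ ⟨_, ha⟩ = a' → π.φ ⟨_, hb⟩ = b' →
      ∃ r : (crv K (algebraMap F K E.a) (algebraMap F K E.b)).Point →+ (crv k a' b').Point,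
        ∀ (x y : K) (h : (crv K (algebraMap F K E.a) (algebraMap F K E.b)).Nonsingular x y),
          (∀ hx : x ∈ π.O, ∃ (hy : y ∈ π.O) (h' : (crv k a' b').Nonsingular (π.φ ⟨x, hx⟩)
            (π.φ ⟨y, hy⟩)), r (.some x y h) = .some _ _ h') ∧
          (x ∉ π.O → r (.some x y h) = 0) := by
    rintro a' b' rfl rfl
    refine ⟨{ toFun := Pool.Agent.H475R2.DC_RED.redF π.φ π.hval (two_ne F k) ⟨_, ha⟩ ⟨_, hb⟩ hd
              map_zero' := rfl
              map_add' := Pool.Agent.H475R2.DC_RED.redF_add π.φ π.hval (two_ne F k) ⟨_, ha⟩ ⟨_, hb⟩ hd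
                Pool.Agent.H439DC.reda Pool.Agent.H816R2.DCREDB.redb
                Pool.Agent.Helper171.DCREDC.redc π.hunit }, fun x y h => ⟨fun hx => ?_, fun hx => ?_⟩⟩
    · have hy : y ∈ π.O := Pool.Agent.H475R2.DC_RED.y_mem π.hval ⟨_, ha⟩ ⟨_, hb⟩ h hx
      have h' := Pool.Agent.H475R2.DC_RED.red_ns π.φ (two_ne F k) ⟨_, ha⟩ ⟨_, hb⟩ hd ⟨x, hx⟩ ⟨y, hy⟩ h
      exact ⟨hy, h', Pool.Agent.H475R2.DC_RED.redF_mem π.φ π.hval (two_ne F k) ⟨_, ha⟩ ⟨_, hb⟩ hd
        ⟨x, hx⟩ ⟨y, hy⟩ h h'⟩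
    · exact Pool.Agent.H475R2.DC_RED.redF_not π.φ π.hval (two_ne F k) ⟨_, ha⟩ ⟨_, hb⟩ hd x y h hx
  obtain ⟨r₀, hr⟩ := key _ _ ha' hb'
  obtain ⟨r, hr'⟩ : ∃ r : E.Pt K →+ E.Pt k, ∀ P, r P = r₀ P := ⟨r₀, fun _ => rfl⟩
  refine ⟨r, fun P hP => ?_⟩
  rcases P with _ | ⟨x, y, h⟩
  · exact absurd rfl hP
  · have hx : E.uu (.some x y h : E.Pt K) = x - algebraMap F K E.e := rfl
    have hy : E.yy (.some x y h : E.Pt K) = y := rfl
    refine ⟨fun hu => ?_, fun hu => ?_⟩
    · have hx' : x ∈ π.O := by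
        have := π.O.add_mem hu he
        rwa [hx, sub_add_cancel] at this
      obtain ⟨hy', h', h1⟩ := (hr x y h).1 hx'
      have h2 : r (.some x y h : E.Pt K) = (.some (π.φ ⟨x, hx'⟩) (π.φ ⟨y, hy'⟩) h' : E.Pt k) :=
        (hr' _).trans h1
      rw [h2]
      refine ⟨fun h0 => ?_, ?_, hy', rfl⟩
      · cases h0
      · change π.φ ⟨x, hx'⟩ - algebraMap F k E.e = _
        rw [← he', ← map_sub]
        rfl
    · refine (hr' _).trans ((hr x y h).2 fun hx' => hu ?_)
      rw [hx]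
      exact π.O.sub_mem hx' he

/-- the reduction of points -/
noncomputable def red : E.Pt K →+ E.Pt k := (red_aux E π).choose

theorem red_mem {P : E.Pt K} (hP : P ≠ 0) (hu : E.uu P ∈ π.O) :
    E.red π P ≠ 0 ∧ E.uu (E.red π P) = π.φ ⟨_, hu⟩ ∧
      ∃ hy : E.yy P ∈ π.O, E.yy (E.red π P) = π.φ ⟨_, hy⟩ :=
  ((red_aux E π).choose_spec P hP).1 hu

theorem red_not {P : E.Pt K} (hP : P ≠ 0) (hu : E.uu P ∉ π.O) : E.red π P = 0 :=
  ((red_aux E π).choose_spec P hP).2 hu

theorem uu_mem_of_red {P : E.Pt K} (h : E.red π P ≠ 0) : P ≠ 0 ∧ E.uu P ∈ π.O := by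
  have hP : P ≠ 0 := by
    rintro rfl
    exact h (map_zero _)
  refine ⟨hP, ?_⟩
  by_contra hu
  exact h (E.red_not π hP hu)

end Cv

end

/-- homomorphisms as places -/
noncomputable def Pl.ofHom {K k : Type} [Field K] [Field k] [Algebra F K] [Algebra F k]
    (f : K →ₐ[F] k) : Pl F K k where
  O := ⊤
  φ := f.toRingHom.comp (Subring.subtype ⊤)
  hval _ := Or.inl (Subring.mem_top _)
  hunit _ _ := Subring.mem_top _
  hF c := ⟨Subring.mem_top _, f.commutes c⟩

namespace Cv

section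

variable {K k l : Type} [Field K] [Field k] [Field l] [Algebra F K] [Algebra F k] [Algebra F l]

/-- maps of points -/
noncomputable def mp (f : K →ₐ[F] k) : E.Pt K →+ E.Pt k := E.red (Pl.ofHom f)

theorem mp_spec (f : K →ₐ[F] k) {P : E.Pt K} (hP : P ≠ 0) :
    E.mp f P ≠ 0 ∧ E.uu (E.mp f P) = f (E.uu P) ∧ E.yy (E.mp f P) = f (E.yy P) := by
  obtain ⟨h1, h2, h3, h4⟩ := E.red_mem (Pl.ofHom f) hP (Subring.mem_top _)
  exact ⟨h1, h2, h4⟩

theorem mp_inj (f : K →ₐ[F] k) : Function.Injective (E.mp f) := by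
  rw [injective_iff_map_eq_zero]
  intro P hP
  by_contra h0
  exact (E.mp_spec f h0).1 hP

theorem uu_mp (f : K →ₐ[F] k) (P : E.Pt K) : E.uu (E.mp f P) = f (E.uu P) := by
  by_cases hP : P = 0
  · rw [hP, map_zero, uu_zero, uu_zero, map_zero]
  · exact (E.mp_spec f hP).2.1

theorem yy_mp (f : K →ₐ[F] k) (P : E.Pt K) : E.yy (E.mp f P) = f (E.yy P) := by
  by_cases hP : P = 0
  · rw [hP, map_zero, yy_zero, yy_zero, map_zero]
  · exact (E.mp_spec f hP).2.2

/-- the points which come from a smaller field -/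
theorem mem_range_mp (f : K →ₐ[F] k) (Q : E.Pt k) (u y : K) (hu : E.uu Q = f u)
    (hy : E.yy Q = f y) : Q ∈ (E.mp f).range := by
  by_cases hQ : Q = 0
  · rw [hQ]
    exact zero_mem _
  · have h1 := E.eqn hQ
    have hA : f (E.A K) = E.A k := f.commutes _
    have hB : f (E.B K) = E.B k := f.commutes _
    have h2 : y ^ 2 = u * (u - E.A K) * (u - E.B K) := by
      have h3 : f (y ^ 2) = f (u * (u - E.A K) * (u - E.B K)) := by
        rw [map_pow, map_mul, map_mul, map_sub, map_sub, hA, hB, ← hu, ← hy, h1]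
      exact f.injective h3
    refine ⟨E.pu u y h2, ?_⟩
    have h3 := E.mp_spec f (E.pu_ne h2)
    refine E.ext h3.1 hQ ?_ ?_
    · rw [h3.2.1, uu_pu, hu]
    · rw [h3.2.2, yy_pu, hy]

theorem mem_range_mp' [IsAlgClosed K] (f : K →ₐ[F] k) (Q : E.Pt k) (u : K) (hu : E.uu Q = f u) :
    Q ∈ (E.mp f).range := by
  by_cases hQ : Q = 0
  · rw [hQ]
    exact zero_mem _
  · obtain ⟨P, hP, hPu⟩ := E.exists_pt u
    have h1 : E.uu (E.mp f P) = E.uu Q := by rw [(E.mp_spec f hP).2.1, hPu, hu]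
    rcases E.eq_or_neg (E.mp_spec f hP).1 hQ h1 with h2 | h2
    · exact ⟨P, h2⟩
    · refine ⟨-P, ?_⟩
      rw [map_neg, h2, neg_neg]

theorem mp_T (f : K →ₐ[F] k) : E.mp f (E.T K) = E.T k := by
  have h3 := E.mp_spec f (E.T_ne K)
  refine E.ext h3.1 (E.T_ne k) ?_ ?_
  · rw [h3.2.1, E.uu_T, E.uu_T, map_zero]
  · rw [h3.2.2, E.yy_T, E.yy_T, map_zero]

end

end Cv

section

variable {A K L : Type} [Field A] [Field K] [Field L] [Algebra F A] [Algebra A K] [Algebra F K]
  [IsScalarTower F A K] [Algebra A L] {ι : Type}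

/-- **Existence of places.** -/
theorem exists_place (p : ι → K) (p' : ι → L) (h : Sp A p p') :
    ∃ (k : Type) (_ : Field k) (_ : Algebra F k) (_ : Algebra A k) (_ : IsScalarTower F A k)
      (π : Pl F K k), (∀ c : A, ∃ h : algebraMap A K c ∈ π.O, π.φ ⟨_, h⟩ = algebraMap A k c) ∧
      ∃ q : ι → k, (∀ i, ∃ h : p i ∈ π.O, π.φ ⟨_, h⟩ = q i) ∧ Sp A q p' ∧ Sp A p' q := by
  let J : Ideal (MvPolynomial ι A) := RingHom.ker (MvPolynomial.aeval p' : MvPolynomial ι A →ₐ[A] L)
  have hJ : J.IsPrime := RingHom.ker_isPrime _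
  let ev : MvPolynomial ι A →+* K := (MvPolynomial.aeval p : MvPolynomial ι A →ₐ[A] K).toRingHom
  have hev : ∀ y : J.primeCompl, IsUnit (ev y) := by
    intro y
    rw [isUnit_iff_ne_zero]
    intro h0
    exact y.2 (h _ h0)
  let f : Localization.AtPrime J →+* K := IsLocalization.lift hev
  obtain ⟨O, hO, hloc⟩ := IsLocalRing.exists_factor_valuationRing f
  let g : Localization.AtPrime J →+* O := f.codRestrict O.toSubring hO
  have hg : ∀ r : MvPolynomial ι A, ((g (algebraMap _ _ r) : O) : K) = MvPolynomial.aeval p r := by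
    intro r
    change f (algebraMap _ _ r) = _
    exact IsLocalization.lift_eq hev r
  have hmem : ∀ r : MvPolynomial ι A, MvPolynomial.aeval p r ∈ O := by
    intro r
    rw [← hg]
    exact (g _).2
  let res : O →+* IsLocalRing.ResidueField O := IsLocalRing.residue O
  have hres : ∀ r : MvPolynomial ι A, res ⟨_, hmem r⟩ = 0 ↔ MvPolynomial.aeval p' r = 0 := by
    intro r
    have e1 : (⟨_, hmem r⟩ : O) = g (algebraMap _ _ r) := Subtype.ext (hg r).symm
    rw [e1]
    change IsLocalRing.residue O _ = 0 ↔ _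
    rw [IsLocalRing.residue_eq_zero_iff, IsLocalRing.mem_maximalIdeal, mem_nonunits_iff]
    have h1 : IsUnit (g (algebraMap _ _ r)) ↔ IsUnit (algebraMap (MvPolynomial ι A)
        (Localization.AtPrime J) r) := ⟨fun h => hloc.map_nonunit _ h, fun h => h.map g⟩
    rw [h1, IsLocalization.AtPrime.isUnit_to_map_iff _ J, Ideal.mem_primeCompl_iff, not_not]
    rfl
  have hA : ∀ c : A, algebraMap A K c ∈ O := by
    intro c
    have := hmem (MvPolynomial.C c)
    rwa [MvPolynomial.aeval_C] at this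
  let algA : A →+* IsLocalRing.ResidueField O :=
    res.comp ((algebraMap A K).codRestrict O.toSubring hA)
  letI i1 : Algebra A (IsLocalRing.ResidueField O) := algA.toAlgebra
  letI i2 : Algebra F (IsLocalRing.ResidueField O) := (algA.comp (algebraMap F A)).toAlgebra
  haveI i3 : IsScalarTower F A (IsLocalRing.ResidueField O) :=
    IsScalarTower.of_algebraMap_eq fun _ => rfl
  have hAk : ∀ c : A, ∃ h : algebraMap A K c ∈ O.toSubring,
      res ⟨_, h⟩ = algebraMap A (IsLocalRing.ResidueField O) c := fun c => ⟨hA c, rfl⟩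
  have hpi : ∀ i, p i ∈ O := by
    intro i
    have := hmem (MvPolynomial.X i)
    rwa [MvPolynomial.aeval_X] at this
  let π : Pl F K (IsLocalRing.ResidueField O) :=
    { O := O.toSubring
      φ := res
      hval := fun x => O.mem_or_inv_mem x
      hunit := by
        intro x hx
        have h1 : IsUnit (show O from x) := by
          by_contra h2
          exact hx ((IsLocalRing.residue_eq_zero_iff (show O from x)).2
            ((IsLocalRing.mem_maximalIdeal _).2 h2))
        obtain ⟨y, hy⟩ := h1.exists_right_inv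
        have h3 : (x : K) * (y : K) = 1 := by
          have := congrArg (fun z : O => (z : K)) hy
          exact this
        rw [inv_eq_of_mul_eq_one_right h3]
        exact y.2
      hF := by
        intro c
        obtain ⟨h1, h2⟩ := hAk (algebraMap F A c)
        rw [← IsScalarTower.algebraMap_apply] at h1
        refine ⟨h1, ?_⟩
        change res _ = algebraMap A _ (algebraMap F A c)
        rw [← h2]
        congr 1
        apply Subtype.ext
        exact IsScalarTower.algebraMap_apply F A K c }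
  let q : ι → IsLocalRing.ResidueField O := fun i => res ⟨_, hpi i⟩
  have hq : ∀ r : MvPolynomial ι A, MvPolynomial.aeval q r = res ⟨_, hmem r⟩ := by
    intro r
    induction r using MvPolynomial.induction_on with
    | C c =>
      rw [MvPolynomial.aeval_C]
      change res _ = res _
      congr 1
      apply Subtype.ext
      exact (MvPolynomial.aeval_C _ _).symm
    | add a b ha hb =>
      rw [map_add, ha, hb, ← map_add]
      congr 1
      apply Subtype.ext
      exact (map_add _ _ _).symm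
    | mul_X a i ha =>
      rw [map_mul, ha, MvPolynomial.aeval_X]
      change res _ * res _ = _
      rw [← map_mul]
      congr 1
      apply Subtype.ext
      change MvPolynomial.aeval p a * p i = MvPolynomial.aeval p (a * MvPolynomial.X i)
      rw [map_mul, MvPolynomial.aeval_X]
  refine ⟨_, inferInstance, i2, i1, i3, π, hAk, q, fun i => ⟨hpi i, rfl⟩, ?_, ?_⟩
  · intro r hr
    rw [← hres, ← hq]
    exact hr
  · intro r hr
    rw [hq, hres]
    exact hr

end

end Pool.Agent.N113.EC
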