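import Pool.Agent.N113.EC.Tors
import Pool.Agent.N101.ZP.XRk
import Pool.Agent.N101.ZP.Gen
import Pool.Agent.N101.ZE.Gate

/-!
# The rank theory of the products of a family of elliptic curves

(The case of one elliptic curve over the algebraic numbers, together with tori, is due to
helper101, `Pool.Agent.N101.ZE.Rk`; the proofs below follow that file.)
-/

set_option autoImplicit false
set_option linter.unusedSectionVars false
set_option linter.style.haveILetI false

namespace Pool.Agent.N113.EC

open Pool.Agent.N101.ZP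
open Pool.Agent.N101.ZE (rkt_le_of rkt_pm' rel_map rkt_map_inj)
open Pool.Agent.R948 (mon rel dr relProj dr_sum le_dr_sum rank_ext dr_le_card td cp un)

namespace Cv

variable {F : Type} [Field F] [CharZero F] (E : Cv F) {K : Type} [Field K] [Algebra F K]

/-- a point over the algebraic closure with a given first coordinate -/
noncomputable def lift (u : K) : E.Pt (AlgebraicClosure K) :=
  (E.exists_pt (algebraMap K (AlgebraicClosure K) u)).choose

theorem lift_ne (u : K) : E.lift u ≠ 0 :=
  (E.exists_pt (algebraMap K (AlgebraicClosure K) u)).choose_spec.1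

theorem uu_lift (u : K) : E.uu (E.lift u) = algebraMap K (AlgebraicClosure K) u :=
  (E.exists_pt (algebraMap K (AlgebraicClosure K) u)).choose_spec.2

end Cv

open Classical in
/-- The product of the groups of points. -/
def GG {F : Type} [Field F] [CharZero F] {J : Type} (E : J → Cv F) (K : Type) [Field K]
    [Algebra F K] : Type := ∀ j, (E j).Pt K

noncomputable instance {F : Type} [Field F] [CharZero F] {J : Type} (E : J → Cv F) (K : Type)
    [Field K] [Algebra F K] : AddCommGroup (GG E K) :=
  inferInstanceAs (AddCommGroup (∀ j, (E j).Pt K))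

section

variable {F : Type} [Field F] [CharZero F] {J : Type} (E : J → Cv F)
  {K L M : Type} [Field K] [Field L] [Field M] [Algebra F K] [Algebra F L] [Algebra F M]

open Classical in
/-- a point of one of the curves as an element of the product -/
noncomputable def sg (j : J) : (E j).Pt K →+ GG E K := AddMonoidHom.single (fun j => (E j).Pt K) j

theorem sg_same (j : J) (P : (E j).Pt K) : sg E j P j = P := by
  classical
  exact Pi.single_eq_same (M := fun j => (E j).Pt K) j P

theorem sg_ne {j j' : J} (h : j' ≠ j) (P : (E j).Pt K) : sg E j P j' = 0 := by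
  classical
  exact Pi.single_eq_of_ne (M := fun j => (E j).Pt K) h P

theorem sg_inj {j : J} {P Q : (E j).Pt K} (h : sg E j P = sg E j Q) : P = Q := by
  rw [← sg_same E j P, h, sg_same]

/-- elements in multiplicative notation -/
abbrev mul (P : GG E K) : Multiplicative (GG E K) := Multiplicative.ofAdd P

/-- maps of the products -/
noncomputable def gm (r : ∀ j, (E j).Pt K →+ (E j).Pt L) : GG E K →+ GG E L where
  toFun P j := r j (P j)
  map_zero' := funext fun j => map_zero (r j)
  map_add' P Q := funext fun j => map_add (r j) (P j) (Q j)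

theorem gm_sg (r : ∀ j, (E j).Pt K →+ (E j).Pt L) (j : J) (P : (E j).Pt K) :
    gm E r (sg E j P) = sg E j (r j P) := by
  funext j'
  change r j' (sg E j P j') = _
  by_cases h : j' = j
  · subst h
    rw [sg_same, sg_same]
  · rw [sg_ne E h, sg_ne E h, map_zero]

theorem gm_inj (r : ∀ j, (E j).Pt K →+ (E j).Pt L) (h : ∀ j, Function.Injective (r j)) :
    Function.Injective (gm E r) := fun _ _ hPQ => funext fun j => h j (congrFun hPQ j)

/-- maps of products in multiplicative notation -/
noncomputable def mpm (f : GG E K →+ GG E L) :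
    Multiplicative (GG E K) →* Multiplicative (GG E L) := AddMonoidHom.toMultiplicative f

theorem mpm_mul (f : GG E K →+ GG E L) (P : GG E K) : mpm E f (mul E P) = mul E (f P) := rfl

theorem mpm_inj (f : GG E K →+ GG E L) (hf : Function.Injective f) :
    Function.Injective (mpm E f) := hf

/-- the point of a coordinate -/
noncomputable def eu (j : J) (u : K) : Multiplicative (GG E (AlgebraicClosure K)) :=
  mul E (sg E j ((E j).lift u))

variable {ι κ : Type} [Fintype ι] [Fintype κ]

/-- the family of the points of a tuple of points -/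
noncomputable def fam {s : ι → J} (Q : ∀ i, (E (s i)).Pt K) : ι → Multiplicative (GG E K) :=
  fun i => mul E (sg E (s i) (Q i))

/-- the rank may be computed with any points with the given first coordinates -/
theorem rkt_lift (f : K →ₐ[F] M) (s : ι → J) (p : ι → K) (Q : ∀ i, (E (s i)).Pt M)
    (hQ : ∀ i, Q i ≠ 0 ∧ (E (s i)).uu (Q i) = f (p i)) :
    rkt (fam E Q) = rkt (fun i => eu E (s i) (p i)) := by
  letI : Algebra K (AlgebraicClosure M) :=
    ((algebraMap M (AlgebraicClosure M)).comp f.toRingHom).toAlgebra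
  let φ₀ : AlgebraicClosure K →ₐ[K] AlgebraicClosure M := IsAlgClosed.lift
  let φ : AlgebraicClosure K →ₐ[F] AlgebraicClosure M :=
    { φ₀.toRingHom with
      commutes' := by
        intro c
        change φ₀ (algebraMap F (AlgebraicClosure K) c) = _
        rw [IsScalarTower.algebraMap_apply F K (AlgebraicClosure K), φ₀.commutes]
        change algebraMap M (AlgebraicClosure M) (f (algebraMap F K c)) = _
        rw [f.commutes, ← IsScalarTower.algebraMap_apply] }
  have hφ : ∀ x : K, φ (algebraMap K (AlgebraicClosure K) x) =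
      algebraMap M (AlgebraicClosure M) (f x) := fun x => φ₀.commutes x
  let ψ : M →ₐ[F] AlgebraicClosure M := IsScalarTower.toAlgHom F M (AlgebraicClosure M)
  rw [← rkt_map_inj (mpm E (gm E fun j => (E j).mp φ)) (mpm_inj E _ (gm_inj E _ fun j =>
      (E j).mp_inj φ)) (fun i => eu E (s i) (p i)),
    ← rkt_map_inj (mpm E (gm E fun j => (E j).mp ψ)) (mpm_inj E _ (gm_inj E _ fun j =>
      (E j).mp_inj ψ)) (fam E Q)]
  refine rkt_pm' _ _ fun i => ?_
  rw [fam, mpm_mul, eu, mpm_mul, gm_sg, gm_sg]
  obtain ⟨h1, h2⟩ := hQ i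
  have h3 := (E (s i)).mp_spec ψ h1
  have h4 := (E (s i)).mp_spec φ ((E (s i)).lift_ne (p i))
  have h5 : (E (s i)).uu ((E (s i)).mp ψ (Q i)) =
      (E (s i)).uu ((E (s i)).mp φ ((E (s i)).lift (p i))) := by
    rw [h3.2.1, h4.2.1, (E (s i)).uu_lift, hφ, h2]
    rfl
  rcases (E (s i)).eq_or_neg h3.1 h4.1 h5 with h6 | h6
  · left
    rw [h6]
  · right
    rw [h6, map_neg]
    rfl

/-- the rank depends only on the relations over `F` -/
theorem rkt_eq_of (s : ι → J) {p : ι → K} {q : ι → L} (h : Sp F p q) (h' : Sp F q p) :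
    rkt (fun i => eu E (s i) (p i)) = rkt (fun i => eu E (s i) (q i)) := by
  obtain ⟨P, hP⟩ : ∃ P : PP F ι, P = PP.ofPt F p := ⟨_, rfl⟩
  have h1 : ∀ f, MvPolynomial.aeval p f = 0 ↔ f ∈ P.I := by
    intro f
    rw [hP]
    exact Iff.rfl
  have h2 : ∀ f, MvPolynomial.aeval q f = 0 ↔ f ∈ P.I := by
    intro f
    rw [← h1]
    exact ⟨fun hf => h' f hf, fun hf => h f hf⟩
  obtain ⟨φ₁, hφ₁⟩ := exists_fldHom' P p h1
  obtain ⟨φ₂, hφ₂⟩ := exists_fldHom' P q h2
  have key : ∀ {M : Type} [Field M] [Algebra F M] (r : ι → M) (φ : P.fld →ₐ[F] M)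
      (_ : ∀ j, φ (P.pt j) = r j),
      rkt (fun i => eu E (s i) (r i)) = rkt (fun i => eu E (s i) (P.pt i)) := by
    intro M _ _ r φ hφ
    refine rkt_lift E ((IsScalarTower.toAlgHom F M (AlgebraicClosure M)).comp φ) s P.pt
      (fun i => (E (s i)).lift (r i)) (fun i => ⟨(E (s i)).lift_ne _, ?_⟩)
    rw [AlgHom.comp_apply, hφ]
    exact (E (s i)).uu_lift _
  rw [key p φ₁ hφ₁, key q φ₂ hφ₂]

/-- specialisations -/
theorem exists_spec {p : ι → K} {p' : ι → L} (h : Sp F p p') :
    ∃ (k : Type) (_ : Field k) (_ : Algebra F k)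
      (r : ∀ j, (E j).Pt (AlgebraicClosure K) →+ (E j).Pt k)
      (q : ι → k), Sp F q p' ∧ Sp F p' q ∧
      (∀ (i : ι) (j : J) (P : (E j).Pt (AlgebraicClosure K)), P ≠ 0 →
        (E j).uu P = algebraMap K (AlgebraicClosure K) (p i) →
          r j P ≠ 0 ∧ (E j).uu (r j P) = q i) ∧
      ∀ (j : J) (R : (E j).Pt F), r j ((E j).bc F _ R) = (E j).bc F k R := by
  have h0 : Sp F (fun i => algebraMap K (AlgebraicClosure K) (p i)) p' := by
    intro f hf
    refine h f ?_
    have h1 : MvPolynomial.aeval (fun i => algebraMap K (AlgebraicClosure K) (p i)) f =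
      algebraMap K (AlgebraicClosure K) (MvPolynomial.aeval p f) :=
        MvPolynomial.aeval_algebraMap_apply _ _ _
    rw [h1] at hf
    exact (map_eq_zero_iff _ (algebraMap K (AlgebraicClosure K)).injective).1 hf
  obtain ⟨k, i1, i2, i3, i4, π, h1, q, h2, h3, h4⟩ := exists_place (F := F) _ _ h0
  have hi : i3 = i2 := by
    apply Algebra.algebra_ext
    intro c
    exact (@IsScalarTower.algebraMap_apply F F k _ _ _ _ i3 i2 i4 c).symm
  subst hi
  refine ⟨k, i1, i3, fun j => (E j).red π, q, h3, h4, fun i j P hP hu => ?_, fun j R =>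
    (E j).red_bc π h1 R⟩
  obtain ⟨h5, h6⟩ := h2 i
  obtain ⟨g1, g2, -⟩ := (E j).red_mem π hP (by rw [hu]; exact h5)
  refine ⟨g1, ?_⟩
  rw [g2, ← h6]
  congr 1
  exact Subtype.ext hu

theorem exists_spec' [IsAlgClosed F] (s : ι → J) {p : ι → K} {p' : ι → L} (h : Sp F p p') :
    ∃ (k : Type) (_ : Field k) (_ : Algebra F k) (Q : ∀ i, (E (s i)).Pt k),
      rel (fun i => eu E (s i) (p i)) ≤ rel (fam E Q) ∧
      (∀ (κ : Type) [Fintype κ] (g : κ → ι), rkt (fun j => fam E Q (g j)) =
        rkt (fun j => eu E (s (g j)) (p' (g j)))) ∧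
      ∀ a b, s a = s b → p a ≠ p b → p' a = p' b →
        rkt (fam E Q) + 1 ≤ rkt (fun i => eu E (s i) (p i)) := by
  classical
  obtain ⟨k, i1, i2, r, q, h1, h2, h3, h4⟩ := exists_spec E h
  let Q : ∀ i, (E (s i)).Pt k := fun i => r (s i) ((E (s i)).lift (p i))
  have hQ : ∀ i, mpm E (gm E r) (eu E (s i) (p i)) = fam E Q i := by
    intro i
    rw [eu, mpm_mul, gm_sg, fam]
  have hrel : rel (fun i => eu E (s i) (p i)) ≤ rel (fam E Q) := by
    have := rel_map (mpm E (gm E r)) (fun i => eu E (s i) (p i))
    simp only [hQ] at this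
    exact this
  refine ⟨k, i1, i2, Q, hrel, ?_, ?_⟩
  · intro κ _ g
    have e1 := rkt_lift E (AlgHom.id F k) (fun j => s (g j)) (fun j => q (g j))
      (fun j => Q (g j)) (fun j => h3 (g j) _ _ ((E _).lift_ne _) ((E _).uu_lift _))
    exact e1.trans (rkt_eq_of E (fun j => s (g j)) (h1.comp g) (h2.comp g))
  · intro a b hs hab hab'
    have hq : q a = q b := h2.eq hab'
    obtain ⟨lb, hlb, hlb'⟩ : ∃ lb : (E (s a)).Pt (AlgebraicClosure K),
        sg E (s a) lb = sg E (s b) ((E (s b)).lift (p b)) ∧ (lb ≠ 0 ∧ (E (s a)).uu lb =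
          algebraMap K (AlgebraicClosure K) (p b)) := by
      rw [hs]
      exact ⟨_, rfl, (E (s b)).lift_ne _, (E (s b)).uu_lift _⟩
    obtain ⟨g1, g2⟩ := h3 a (s a) _ ((E (s a)).lift_ne (p a)) ((E (s a)).uu_lift (p a))
    obtain ⟨g3, g4⟩ := h3 b (s a) _ hlb'.1 hlb'.2
    have hpm := (E (s a)).eq_or_neg g1 g3 (by rw [g2, g4, hq])
    obtain ⟨c, hc, hc'⟩ : ∃ c : ℤ, (c = 1 ∨ c = -1) ∧
        r (s a) ((E (s a)).lift (p a)) = c • r (s a) lb := by
      rcases hpm with h5 | h5
      · exact ⟨1, Or.inl rfl, by rw [one_smul, h5]⟩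
      · exact ⟨-1, Or.inr rfl, by rw [h5, neg_smul, one_smul]⟩
    -- the new relation
    have hmon : ∀ {M : Type} [Field M] [Algebra F M] (R : ι → GG E M),
        mon (fun i => mul E (R i)) (Pi.single a 1 - c • Pi.single b 1 : ι → ℤ) =
          mul E (R a - c • R b) := by
      intro M _ _ R
      rw [sub_eq_add_neg, R948.mon_add, R948.mon_neg, R948.mon_smul, mon_single, mon_single,
        sub_eq_add_neg]
      rfl
    have hlt : dr (fun i => eu E (s i) (p i)) < dr (fam E Q) := by
      refine Submodule.finrank_lt_finrank_of_lt (lt_of_le_of_ne hrel fun h5 => ?_)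
      have h6 : (fun i => ((Pi.single a 1 - c • Pi.single b 1 : ι → ℤ) i : ℚ)) ∈
          rel (fam E Q) := by
        rw [R948.mem_rel_int]
        refine ⟨1, one_pos, ?_⟩
        rw [pow_one]
        change mon (fun i => mul E (sg E (s i) (Q i))) _ = 1
        rw [hmon]
        have e2 : sg E (s b) (Q b) = sg E (s a) (r (s a) lb) := by
          have h7 := gm_sg E r (s a) lb
          rw [hlb, gm_sg] at h7
          exact h7
        have e1 : sg E (s a) (Q a) = c • sg E (s a) (r (s a) lb) := by
          rw [← map_zsmul]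
          congr 1
        rw [e2, e1, sub_self]
        rfl
      rw [← h5, R948.mem_rel_int] at h6
      obtain ⟨N, hN, h7⟩ := h6
      have h8 := hmon (fun i => sg E (s i) ((E (s i)).lift (p i)))
      have e3 : (fun i => mul E (sg E (s i) ((E (s i)).lift (p i)))) =
        fun i => eu E (s i) (p i) := rfl
      rw [e3] at h8
      rw [h8] at h7
      have h9' : N • (sg E (s a) ((E (s a)).lift (p a)) - c • sg E (s b) ((E (s b)).lift (p b))) =
        0 := h7
      rw [← hlb, ← map_zsmul, ← map_sub, ← map_nsmul] at h9'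
      have h9 : N • ((E (s a)).lift (p a) - c • lb) = 0 := by
        apply sg_inj E
        rw [h9', map_zero]
      obtain ⟨R, hR⟩ := (E (s a)).mem_of_tors (A := F) _ N hN h9
      have h10 : (E (s a)).bc F k R = 0 := by
        rw [← h4, hR, map_sub, map_zsmul, hc', sub_self]
      have h11 : R = 0 := by
        apply (E (s a)).mp_inj (IsScalarTower.toAlgHom F F k)
        rw [map_zero]
        exact h10
      rw [h11, map_zero] at hR
      have h12 : (E (s a)).lift (p a) = c • lb := (sub_eq_zero.1 hR.symm)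
      apply hab
      apply (algebraMap K (AlgebraicClosure K)).injective
      rw [← (E (s a)).uu_lift (p a), ← hlb'.2, h12]
      rcases hc with rfl | rfl
      · rw [one_smul]
      · rw [neg_smul, one_smul, (E (s a)).uu_neg]
    have h5 := rkt_add_dr (fun i => eu E (s i) (p i))
    have h6 := rkt_add_dr (fam E Q)
    omega

open scoped IntermediateField.algebraAdjoinAdjoin in
/-- coordinates of points which are generated by others up to torsion are algebraic over them -/
theorem alg_of_mon (s : ι → J) (p : ι → K) (S : Set K) (hS : ∀ i, p i ∈ S) (j : J) (x : K)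
    (N : ℕ) (hN : 0 < N) (c : ι → ℤ)
    (h : eu E j x ^ N = mon (fun i => eu E (s i) (p i)) c) :
    IsAlgebraic (Algebra.adjoin F S) x := by
  let F₁ : IntermediateField F K := IntermediateField.adjoin F S
  let A : IntermediateField F₁ (AlgebraicClosure K) := algebraicClosure F₁ (AlgebraicClosure K)
  haveI hA : IsAlgClosed A :=
    (algebraicClosure.isAlgClosure F₁ (AlgebraicClosure K)).isAlgClosed
  haveI htow : IsScalarTower F A (AlgebraicClosure K) :=
    IsScalarTower.of_algebraMap_eq fun _ => rfl
  have h1 : ∀ i, (Multiplicative.toAdd (eu E (s i) (p i))) j ∈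
      ((E j).bc A (AlgebraicClosure K)).range := by
    intro i
    change sg E (s i) ((E (s i)).lift (p i)) j ∈ _
    by_cases hj : j = s i
    · subst hj
      rw [sg_same]
      have h2 : algebraMap K (AlgebraicClosure K) (p i) ∈ A := by
        have h3 : p i ∈ F₁ := IntermediateField.subset_adjoin _ _ (hS i)
        have h4 := A.algebraMap_mem (⟨p i, h3⟩ : F₁)
        exact h4
      exact (E (s i)).mem_range_mp' (IsScalarTower.toAlgHom F A (AlgebraicClosure K)) _ ⟨_, h2⟩
        ((E (s i)).uu_lift _)
    · rw [sg_ne E hj]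
      exact zero_mem _
  have h2 : (Multiplicative.toAdd (mon (fun i => eu E (s i) (p i)) c)) j ∈
      ((E j).bc A (AlgebraicClosure K)).range := by
    have h3 : Multiplicative.toAdd (mon (fun i => eu E (s i) (p i)) c) =
        ∑ i, c i • Multiplicative.toAdd (eu E (s i) (p i)) := by
      rw [mon, toAdd_prod]
      rfl
    have h4 : (∑ i, c i • Multiplicative.toAdd (eu E (s i) (p i)) : GG E (AlgebraicClosure K)) j =
        ∑ i, c i • (Multiplicative.toAdd (eu E (s i) (p i))) j := by
      let ev : GG E (AlgebraicClosure K) →+ (E j).Pt (AlgebraicClosure K) :=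
        { toFun := fun P => P j
          map_zero' := rfl
          map_add' := fun _ _ => rfl }
      have h5 := map_sum ev (fun i => c i • Multiplicative.toAdd (eu E (s i) (p i))) Finset.univ
      simp only [map_zsmul] at h5
      exact h5
    rw [h3, h4]
    exact sum_mem fun i _ => zsmul_mem (h1 i) _
  rw [← h] at h2
  have h3 : N • (E j).lift x ∈ ((E j).bc A (AlgebraicClosure K)).range := by
    have h4 : (Multiplicative.toAdd (eu E j x ^ N)) j = N • (E j).lift x := by
      change (N • sg E j ((E j).lift x) : GG E (AlgebraicClosure K)) j = _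
      rw [← map_nsmul, sg_same]
    rw [← h4]
    exact h2
  obtain ⟨R, hR⟩ := (E j).mem_of_nsmul _ N hN h3
  have h4 : algebraMap K (AlgebraicClosure K) x ∈ A := by
    rw [← (E j).uu_lift x, ← hR, Cv.bc, (E j).uu_mp]
    exact ((E j).uu R).2
  have h5 : IsAlgebraic F₁ (algebraMap K (AlgebraicClosure K) x) := mem_algebraicClosure_iff.1 h4
  have h6 : IsAlgebraic F₁ x :=
    (isAlgebraic_algebraMap_iff (algebraMap K (AlgebraicClosure K)).injective).1 h5
  exact (IsFractionRing.isAlgebraic_iff (Algebra.adjoin F S) F₁ K).2 h6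

end

end Pool.Agent.N113.EC
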