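import Pool.Agent.N113.EC.Gate

/-!
# Squares, products and all polynomials
-/

set_option autoImplicit false
set_option linter.unusedSectionVars false
set_option linter.style.haveILetI false
set_option linter.unusedSimpArgs false

namespace Pool.Agent.N113.EC

open Pool.Agent.N101
open Pool.Agent.N101.ZP (Sp PP Nz RT Cond FinR FinC SpC alg_mem)
open MvPolynomial

section

variable {F : Type} [Field F] [CharZero F] [IsAlgClosed F] {J : Type} {E : J → Cv F} {j₀ : J}
  {κ lam : Type}

/-- the condition of translation by the point of order two -/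
theorem SG.inv (j : J) : SG E j₀ (fun _ => j)
    (Cond.pols [X 0 * X 1 - C ((E j).al * (E j).be)] : Cond F (Fin 2)) :=
  SG.of_spC (spC_inv j)

theorem sat_inv {K : Type} [Field K] [Algebra F K] (j : J) (y : Fin 2 → K) :
    (Cond.pols [X 0 * X 1 - C ((E j).al * (E j).be)] : Cond F (Fin 2)).sat y ↔
      y 0 * y 1 = (E j).A K * (E j).B K := by
  rw [sat_pol, map_sub, map_mul, aeval_X, aeval_X, aeval_C, sub_eq_zero, map_mul]
  rfl

variable (hal : (E j₀).al = 1)

include hal

theorem A_one (K : Type) [Field K] [Algebra F K] : (E j₀).A K = 1 := by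
  rw [Cv.A, hal, map_one]

theorem SP.one : SP E j₀ (1 : MvPolynomial κ F) :=
  (SP.al j₀).congr (by rw [hal, C_1])

/-- squares of most numbers -/
theorem SGR.sq (j : ℕ) : SGR E j₀ (fun _ => j₀) (fun {K} _ _ (y : Option (Fin 1) → K) =>
      y (some 0) + j ≠ 0 ∧ y (some 0) + (j + 1) ≠ 0)
    (graph (MvPolynomial.X 0 ^ 2 : MvPolynomial (Fin 1) F)) := by
  let W := Option (Fin 1) ⊕ Fin 6
  let G' : Cond F W :=
    ((graph (MvPolynomial.X 0 + (j : MvPolynomial (Fin 1) F) * 1)).comap
      (fun i => i.elim (Sum.inr 0) (fun _ => Sum.inl (some 0)) : Option (Fin 1) → W)).and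
    (((graph (MvPolynomial.X 0 + ((j + 1 : ℕ) : MvPolynomial (Fin 1) F) * 1)).comap
      (fun i => i.elim (Sum.inr 1) (fun _ => Sum.inl (some 0)) : Option (Fin 1) → W)).and
    (((Cond.pols [X 0 * X 1 - C ((E j₀).al * (E j₀).be)]).comap
      (![Sum.inr 0, Sum.inr 2] : Fin 2 → W)).and
    (((Cond.pols [X 0 * X 1 - C ((E j₀).al * (E j₀).be)]).comap
      (![Sum.inr 1, Sum.inr 3] : Fin 2 → W)).and
    (((graph (MvPolynomial.X 0 - MvPolynomial.X 1)).comap
      (fun i => i.elim (Sum.inr 4) (![Sum.inr 2, Sum.inr 3]) : Option (Fin 2) → W)).and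
    (((Cond.pols [X 0 * X 1 - C ((E j₀).al * (E j₀).be)]).comap
      (![Sum.inr 4, Sum.inr 5] : Fin 2 → W)).and
    ((graph (MvPolynomial.X 0 - (((2 * j + 1 : ℕ) : MvPolynomial (Fin 2) F) * MvPolynomial.X 1 +
        ((j * j + j : ℕ) : MvPolynomial (Fin 2) F) * 1))).comap
      (fun i => i.elim (Sum.inl none) (![Sum.inr 5, Sum.inl (some 0)]) :
        Option (Fin 2) → W)))))))
  have hG' : SG E j₀ (Sum.elim (fun _ => j₀) (fun _ => j₀)) G' := by
    have : (Sum.elim (fun _ => j₀) (fun _ => j₀) : W → J) = fun _ => j₀ := by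
      funext x
      rcases x with x | x <;> rfl
    rw [this]
    refine SG.and (SG.comap (SP.add (SP.X 0) (SP.natMul (SP.one hal) j)) _ _ fun _ => rfl)
      (SG.and (SG.comap (SP.add (SP.X 0) (SP.natMul (SP.one hal) (j + 1))) _ _ fun _ => rfl)
      (SG.and (SG.comap (SG.inv j₀) _ _ fun _ => rfl)
      (SG.and (SG.comap (SG.inv j₀) _ _ fun _ => rfl)
      (SG.and (SG.comap (SP.sub (SP.X 0) (SP.X 1)) _ _ fun _ => rfl)
      (SG.and (SG.comap (SG.inv j₀) _ _ fun _ => rfl)
      (SG.comap (SP.sub (SP.X 0) (SP.add (SP.natMul (SP.X 1) (2 * j + 1))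
        (SP.natMul (SP.one hal) (j * j + j)))) _ _ fun _ => rfl))))))
  have key : ∀ (K : Type) [Field K] [Algebra F K] (z : W → K), G'.sat z ↔
      z (Sum.inr 0) = z (Sum.inl (some 0)) + j ∧
      z (Sum.inr 1) = z (Sum.inl (some 0)) + (j + 1) ∧
      z (Sum.inr 0) * z (Sum.inr 2) = (E j₀).B K ∧
      z (Sum.inr 1) * z (Sum.inr 3) = (E j₀).B K ∧
      z (Sum.inr 4) = z (Sum.inr 2) - z (Sum.inr 3) ∧
      z (Sum.inr 4) * z (Sum.inr 5) = (E j₀).B K ∧
      z (Sum.inl none) = z (Sum.inr 5) - ((2 * j + 1) * z (Sum.inl (some 0)) + (j * j + j)) := by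
    intro K _ _ z
    have hB : (E j₀).B K = (E j₀).A K * (E j₀).B K := by rw [A_one hal, one_mul]
    refine and_congr ?_ (and_congr ?_ (and_congr ?_ (and_congr ?_ (and_congr ?_
      (and_congr ?_ ?_)))))
    · change z (Sum.inr 0) = aeval (fun _ => z (Sum.inl (some 0)))
        (MvPolynomial.X 0 + (j : MvPolynomial (Fin 1) F) * 1) ↔ _
      simp
    · change z (Sum.inr 1) = aeval (fun _ => z (Sum.inl (some 0)))
        (MvPolynomial.X 0 + ((j + 1 : ℕ) : MvPolynomial (Fin 1) F) * 1) ↔ _
      simp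
    · rw [hB]
      exact sat_inv j₀ (fun i => z ((![Sum.inr 0, Sum.inr 2] : Fin 2 → W) i))
    · rw [hB]
      exact sat_inv j₀ (fun i => z ((![Sum.inr 1, Sum.inr 3] : Fin 2 → W) i))
    · change z (Sum.inr 4) = aeval (fun i => z ((![Sum.inr 2, Sum.inr 3] : Fin 2 → W) i))
        (MvPolynomial.X 0 - MvPolynomial.X 1) ↔ _
      simp
    · rw [hB]
      exact sat_inv j₀ (fun i => z ((![Sum.inr 4, Sum.inr 5] : Fin 2 → W) i))
    · change z (Sum.inl none) =
        aeval (fun i => z ((![Sum.inr 5, Sum.inl (some 0)] : Fin 2 → W) i))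
        (MvPolynomial.X 0 - (((2 * j + 1 : ℕ) : MvPolynomial (Fin 2) F) * MvPolynomial.X 1 +
        ((j * j + j : ℕ) : MvPolynomial (Fin 2) F) * 1)) ↔ _
      simp
  refine SGR.proj hG' ?_ ?_ ?_
  · rintro K _ _ y hG ⟨hD1, hD2⟩
    have hy : y none = aeval (fun i => y (some i))
      (MvPolynomial.X 0 ^ 2 : MvPolynomial (Fin 1) F) := hG
    rw [map_pow, aeval_X] at hy
    have hB := (E j₀).B_ne K
    refine ⟨![y (some 0) + j, y (some 0) + (j + 1),
      (E j₀).B K / (y (some 0) + j), (E j₀).B K / (y (some 0) + (j + 1)),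
      (E j₀).B K / (y (some 0) + j) - (E j₀).B K / (y (some 0) + (j + 1)),
      (y (some 0) + j) * (y (some 0) + (j + 1))], ?_⟩
    rw [key]
    refine ⟨rfl, rfl, mul_div_cancel₀ _ hD1, mul_div_cancel₀ _ hD2, rfl, ?_, ?_⟩
    · change ((E j₀).B K / (y (some 0) + j) - (E j₀).B K / (y (some 0) + (j + 1))) *
        ((y (some 0) + j) * (y (some 0) + (j + 1))) = (E j₀).B K
      obtain ⟨a, ha⟩ : ∃ a, a = y (some 0) + j := ⟨_, rfl⟩
      obtain ⟨b, hb⟩ : ∃ b, b = y (some 0) + (j + 1) := ⟨_, rfl⟩
      have hab : b - a = 1 := by rw [ha, hb]; ring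
      rw [← ha, ← hb]
      rw [← ha] at hD1
      rw [← hb] at hD2
      have e1 : ((E j₀).B K / a - (E j₀).B K / b) * (a * b) = (E j₀).B K * (b - a) := by
        field_simp
      rw [e1, hab, mul_one]
    · change y none = (y (some 0) + j) * (y (some 0) + (j + 1)) -
        ((2 * j + 1) * y (some 0) + (j * j + j))
      rw [hy]
      ring
  · intro K _ _ q hq
    obtain ⟨e0, e1, e2, e3, e4, e5, e6⟩ := (key K q).1 hq
    have hB := (E j₀).B_ne K
    change q (Sum.inl none) = aeval (fun i => q (Sum.inl (some i)))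
      (MvPolynomial.X 0 ^ 2 : MvPolynomial (Fin 1) F)
    have h1 : q (Sum.inr 0) * q (Sum.inr 1) = q (Sum.inr 5) := by
      apply mul_left_cancel₀ hB
      calc (E j₀).B K * (q (Sum.inr 0) * q (Sum.inr 1))
          = q (Sum.inr 4) * q (Sum.inr 5) * (q (Sum.inr 0) * q (Sum.inr 1)) := by rw [e5]
        _ = (q (Sum.inr 2) - q (Sum.inr 3)) * q (Sum.inr 5) *
            (q (Sum.inr 0) * q (Sum.inr 1)) := by rw [e4]
        _ = (q (Sum.inr 0) * q (Sum.inr 2) * q (Sum.inr 1) -
            q (Sum.inr 1) * q (Sum.inr 3) * q (Sum.inr 0)) * q (Sum.inr 5) := by ring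
        _ = (E j₀).B K * (q (Sum.inr 1) - q (Sum.inr 0)) * q (Sum.inr 5) := by
            rw [e2, e3]; ring
        _ = (E j₀).B K * q (Sum.inr 5) := by rw [e1, e0]; ring
    rw [map_pow, aeval_X, e6]
    rw [e0, e1] at h1
    linear_combination -h1
  · intro K _ _ q hq
    obtain ⟨e0, e1, e2, e3, e4, e5, e6⟩ := (key K q).1 hq
    let R := Algebra.adjoin F (Set.range fun i => q (Sum.inl i))
    have hu : q (Sum.inl (some 0)) ∈ R := Algebra.subset_adjoin ⟨some 0, rfl⟩
    have hc : (E j₀).B K ∈ R := Subalgebra.algebraMap_mem _ _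
    have hmem : ∀ {x : K}, x ∈ R → IsAlgebraic R x := fun {x} hx =>
      isAlgebraic_algebraMap (A := K) (⟨x, hx⟩ : R)
    have a0 : IsAlgebraic R (q (Sum.inr 0)) := by
      rw [e0]
      exact hmem (R.add_mem hu (natCast_mem R j))
    have a1 : IsAlgebraic R (q (Sum.inr 1)) := by
      rw [e1]
      exact hmem (R.add_mem hu (R.add_mem (natCast_mem R j) R.one_mem))
    have hdiv : ∀ {x y : K}, x * y = (E j₀).B K → IsAlgebraic R x → IsAlgebraic R y := by
      intro x y h hx
      have hx0 : x ≠ 0 := by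
        rintro rfl
        rw [zero_mul] at h
        exact (E j₀).B_ne K h.symm
      have h2 : y = (E j₀).B K * x⁻¹ := by
        rw [← h]
        field_simp
      rw [h2]
      exact (hmem hc).mul hx.inv
    have a2 := hdiv e2 a0
    have a3 := hdiv e3 a1
    have a4 : IsAlgebraic R (q (Sum.inr 4)) := by
      rw [e4, sub_eq_add_neg]
      exact a2.add a3.neg
    have a5 := hdiv e5 a4
    intro i
    fin_cases i
    · exact a0
    · exact a1
    · exact a2
    · exact a3
    · exact a4
    · exact a5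

/-- squares -/
theorem SP.sq0 : SP E j₀ (MvPolynomial.X 0 ^ 2 : MvPolynomial (Fin 1) F) := by
  refine (SGR.union (E := E) (D := fun _ => True) (SGR.sq hal 0) (SGR.sq hal 2) ?_ :
    SGR E j₀ (fun _ => j₀) (fun _ => True)
      (graph (MvPolynomial.X 0 ^ 2 : MvPolynomial (Fin 1) F)))
  intro K _ _ y _
  by_contra hcon
  rw [not_or, not_and_or, not_and_or, not_not, not_not, not_not, not_not] at hcon
  obtain ⟨h1, h2⟩ := hcon
  have hch : CharZero K := charZero_of_injective_algebraMap (algebraMap F K).injective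
  have e1 : ∀ n : ℕ, 0 < n → (n : K) ≠ 0 := fun n hn => by exact_mod_cast hn.ne'
  rcases h1 with h1 | h1 <;> rcases h2 with h2 | h2
  · exact e1 2 two_pos (by push_cast; push_cast at h1 h2; linear_combination h2 - h1)
  · exact e1 3 three_pos (by push_cast; push_cast at h1 h2; linear_combination h2 - h1)
  · exact e1 1 one_pos (by push_cast; push_cast at h1 h2; linear_combination h2 - h1)
  · exact e1 2 two_pos (by push_cast; push_cast at h1 h2; linear_combination h2 - h1)

theorem SP.sq {H : MvPolynomial κ F} (hH : SP E j₀ H) : SP E j₀ (H ^ 2) :=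
  (SP.comp (SP.sq0 hal) (Gs := fun _ => H) (fun _ => hH)).congr (by simp)

theorem SP.mul2 {G G' : MvPolynomial κ F} (h : SP E j₀ G) (h' : SP E j₀ G') :
    SP E j₀ (2 * (G * G')) :=
  (((h.add h').sq hal).sub ((h.sq hal).add (h'.sq hal))).congr (by ring)

omit hal in
/-- roots of computable polynomials are computable -/
theorem SP.pin {p : Polynomial F} (hp0 : p ≠ 0)
    (hp : SP E j₀ (Polynomial.aeval (MvPolynomial.X 0 : MvPolynomial (Fin 1) F) p)) {c : F}
    (hc : p.eval c = 0) : SP E j₀ (C c : MvPolynomial κ F) := by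
  have h1 := SP.van hp
  have hval : ∀ (K : Type) [Field K] [Algebra F K] (y : Fin 1 → K),
      (Cond.pols [Polynomial.aeval (MvPolynomial.X 0 : MvPolynomial (Fin 1) F) p]).sat y ↔
      Polynomial.aeval (y 0) p = 0 := by
    intro K _ _ y
    rw [sat_pol, ← Polynomial.aeval_algHom_apply, aeval_X]
  refine SP.const ?_
  refine SGR.of_stronger (D := fun _ => True) h1 ?_ ?_
  · intro K L _ _ _ _ q z hq hqz hz
    rw [hval] at hq
    have hz' : z 0 = algebraMap F L c := by
      rwa [sat_pol, map_sub, aeval_X, aeval_C, sub_eq_zero] at hz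
    have hq1 : IsAlgebraic F (q 0) := ⟨p, hp0, hq⟩
    obtain ⟨t, ht⟩ : ∃ t : F, algebraMap F K t = q 0 :=
      minpoly.mem_range_of_degree_eq_one F _
        (IsAlgClosed.degree_eq_one_of_irreducible F (minpoly.irreducible hq1.isIntegral))
    have h4 := hqz.const (a := 0) (t := t) ht.symm
    have h5 : t = c := (algebraMap F L).injective (h4.symm.trans hz')
    rw [sat_pol, map_sub, aeval_X, aeval_C, ← ht, h5, sub_self]
  · intro K _ _ y hy _
    rw [hval]
    have hy' : y 0 = algebraMap F K c := by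
      rwa [sat_pol, map_sub, aeval_X, aeval_C, sub_eq_zero] at hy
    rw [hy', Polynomial.aeval_algebraMap_apply, Polynomial.coe_aeval_eq_eval, hc, map_zero]

theorem SP.half : SP E j₀ (C 2⁻¹ : MvPolynomial κ F) := by
  refine SP.pin (p := 2 * Polynomial.X - 1) ?_ ?_ ?_
  · intro h
    have := congrArg (Polynomial.eval 0) h
    simp at this
  · refine (((SP.X 0).natMul 2).sub (SP.one hal)).congr ?_
    simp
    exact map_ofNat _ 2
  · simp

theorem SP.mul {G G' : MvPolynomial κ F} (h : SP E j₀ G) (h' : SP E j₀ G') :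
    SP E j₀ (G * G') := by
  have h4 : SP E j₀ (C (2⁻¹ * 2⁻¹) : MvPolynomial κ F) := by
    refine SP.pin (p := 2 * Polynomial.X - Polynomial.C 2⁻¹) ?_ ?_ ?_
    · intro h
      have := congrArg (Polynomial.eval 0) h
      simp at this
    · refine (((SP.X 0).natMul 2).sub (SP.half hal)).congr ?_
      simp [algebraMap_eq]
      exact map_ofNat _ 2
    · simp
  refine (h4.mul2 hal (h.mul2 hal h')).congr ?_
  have e1 : (C (2⁻¹ * 2⁻¹) : MvPolynomial κ F) * 4 = 1 := by
    have e2 : (4 : MvPolynomial κ F) = C 4 := (map_ofNat C 4).symm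
    rw [e2, ← C_mul]
    norm_num
  linear_combination (-(G * G')) * e1

/-- the computable constants -/
noncomputable def cring : Subring F where
  carrier := {c | SP E j₀ (C c : MvPolynomial Empty F)}
  mul_mem' {a b} ha hb := by
    have := SP.mul hal ha hb
    rwa [← C_mul] at this
  one_mem' := by
    have := SP.one (κ := Empty) hal
    rwa [← C_1] at this
  add_mem' {a b} ha hb := by
    have := SP.add ha hb
    rwa [← C_add] at this
  zero_mem' := by
    have := SP.zero (E := E) (j₀ := j₀) (κ := Empty)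
    rwa [← C_0] at this
  neg_mem' {a} ha := by
    have := SP.neg ha
    rwa [← C_neg] at this

omit hal in
theorem SP.changeC {c : F} (h : SP E j₀ (C c : MvPolynomial Empty F)) :
    SP E j₀ (C c : MvPolynomial κ F) :=
  (SP.comp (lam := Empty) h (Gs := fun i => i.elim) (fun i => i.elim)).congr (by simp)

/-- **All constants which are algebraic over the values at the points of order two of the curves are
computable.** -/
theorem SP.C (halg : Algebra.IsAlgebraic
    (Algebra.adjoin ℤ (Set.range fun j => (E j).al) ⊔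
      Algebra.adjoin ℤ (Set.range fun j => (E j).be) : Subalgebra ℤ F) F) (c : F) :
    SP E j₀ (C c : MvPolynomial κ F) := by
  let R : Subalgebra ℤ F := Algebra.adjoin ℤ (Set.range fun j => (E j).al) ⊔
      Algebra.adjoin ℤ (Set.range fun j => (E j).be)
  have hR : ∀ r ∈ R, r ∈ cring hal := by
    intro r hr
    have h1 : R ≤ subalgebraOfSubring (cring hal) := by
      refine sup_le (Algebra.adjoin_le ?_) (Algebra.adjoin_le ?_)
      · rintro _ ⟨j, rfl⟩
        exact SP.al (E := E) (j₀ := j₀) (κ := Empty) j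
      · rintro _ ⟨j, rfl⟩
        exact SP.be (E := E) (j₀ := j₀) (κ := Empty) j
    exact h1 hr
  obtain ⟨p, hp0, hp⟩ := halg.1 c
  refine SP.pin (p := p.map (algebraMap R F)) ?_ ?_ ?_
  · rw [Ne, Polynomial.map_eq_zero_iff (FaithfulSMul.algebraMap_injective R F)]
    exact hp0
  · have h1 : ∀ q : Polynomial R, SP E j₀ (Polynomial.aeval
        (MvPolynomial.X 0 : MvPolynomial (Fin 1) F) (q.map (algebraMap R F))) := by
      intro q
      induction q using Polynomial.induction_on' with
      | add p q hp hq =>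
        rw [Polynomial.map_add, map_add]
        exact hp.add hq
      | monomial n a =>
        rw [Polynomial.map_monomial, Polynomial.aeval_monomial]
        refine SP.mul hal (SP.changeC (hR _ a.2)) ?_
        induction n with
        | zero => exact (SP.one hal).congr (pow_zero _)
        | succ n ih => exact (SP.mul hal ih (SP.X 0)).congr (pow_succ _ _)
    exact h1 p
  · rw [Polynomial.eval_map_algebraMap]
    exact hp

/-- **All polynomials are computable.** -/
theorem SP.all' (halg : Algebra.IsAlgebraic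
    (Algebra.adjoin ℤ (Set.range fun j => (E j).al) ⊔
      Algebra.adjoin ℤ (Set.range fun j => (E j).be) : Subalgebra ℤ F) F)
    (G : MvPolynomial κ F) : SP E j₀ G := by
  induction G using MvPolynomial.induction_on with
  | C m => exact SP.C hal halg m
  | add p q hp hq => exact hp.add hq
  | mul_X p i hp => exact SP.mul hal hp (SP.X i)

/-- **Polynomial equations on coordinates of all sorts.** -/
theorem SG.pol [Fintype κ] (halg : Algebra.IsAlgebraic
    (Algebra.adjoin ℤ (Set.range fun j => (E j).al) ⊔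
      Algebra.adjoin ℤ (Set.range fun j => (E j).be) : Subalgebra ℤ F) F)
    (s : κ → J) (H : MvPolynomial κ F) : SG E j₀ s (Cond.pols [H]) := by
  let tie : κ → Cond F (κ ⊕ κ) := fun i =>
    (eqC F).comap (![Sum.inr i, Sum.inl i] : Fin 2 → κ ⊕ κ)
  let S : κ ⊕ κ → J := Sum.elim s (fun _ => j₀)
  have htie : ∀ i, SG E j₀ S (tie i) := by
    intro i
    refine (SG.eq (s i)).comap _ _ fun j => ?_
    fin_cases j <;> rfl
  let G' : Cond F (κ ⊕ κ) := (allC tie).and ((Cond.pols [H]).comap Sum.inr)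
  have hG' : SG E j₀ S G' := (SG.all htie).and ((SP.van (SP.all' hal halg H)).comap S Sum.inr
    (fun _ => rfl))
  have key : ∀ (K : Type) [Field K] [Algebra F K] (z : κ ⊕ κ → K), G'.sat z ↔
      (∀ i, z (Sum.inr i) = z (Sum.inl i)) ∧ aeval (fun i => z (Sum.inr i)) H = 0 := by
    intro K _ _ z
    exact and_congr Iff.rfl (sat_pol H (fun i => z (Sum.inr i)))
  refine SG.elim (s := s) (s' := fun _ => j₀) hG' (fun i => MvPolynomial.X i) ?_ ?_ ?_
  · intro K _ _ z hz j
    rw [aeval_X]
    exact ((key K z).1 hz).1 j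
  · intro K _ _ y hy
    rw [key]
    refine ⟨fun i => ?_, ?_⟩
    · change aeval y (MvPolynomial.X i) = y i
      rw [aeval_X]
    · have e1 : (fun i => (Sum.elim y (fun j => aeval y (MvPolynomial.X j : MvPolynomial κ F)) :
          κ ⊕ κ → K) (Sum.inr i)) = y := by
        funext i
        change aeval y (MvPolynomial.X i) = y i
        rw [aeval_X]
      rw [e1]
      exact (sat_pol H y).1 hy
  · intro K _ _ z hz
    obtain ⟨h1, h2⟩ := (key K z).1 hz
    rw [sat_pol]
    have h3 : (fun i => z (Sum.inr i)) = fun i => z (Sum.inl i) := funext h1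
    rwa [h3] at h2

theorem SG.pols [Fintype κ] (halg : Algebra.IsAlgebraic
    (Algebra.adjoin ℤ (Set.range fun j => (E j).al) ⊔
      Algebra.adjoin ℤ (Set.range fun j => (E j).be) : Subalgebra ℤ F) F)
    (s : κ → J) (LL : List (MvPolynomial κ F)) : SG E j₀ s (Cond.pols LL) := by
  induction LL with
  | nil => exact SG.top.congr fun K _ _ y => by simp [Cond.pols, Cond.top]
  | cons H LL ih =>
    refine ((SG.pol hal halg s H).and ih).congr fun K _ _ y => ?_
    simp [Cond.pols, Cond.and]

end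

end Pool.Agent.N113.EC
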