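import Pool.Agent.N113.EC.Place

/-!
# Torsion and divisibility
-/

set_option autoImplicit false
set_option linter.unusedSectionVars false
set_option linter.style.haveILetI false

namespace Pool.Agent.N113.EC

open Pool.Agent.N101.ZP

variable {F : Type} [Field F] [CharZero F] (E : Cv F)

namespace Cv

section

variable {A : Type} [Field A] [Algebra F A] [IsAlgClosed A]

theorem exists_two_pow (k : ℕ) : ∃ R : E.Pt A, 2 ^ k • R = E.T A := by
  induction k with
  | zero => exact ⟨E.T A, by rw [pow_zero, one_smul]⟩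
  | succ k ih =>
    obtain ⟨R, hR⟩ := ih
    have hR0 : R ≠ 0 := by
      rintro rfl
      rw [smul_zero] at hR
      exact E.T_ne A hR.symm
    obtain ⟨S, -, hS⟩ := E.exists_half hR0
    refine ⟨S, ?_⟩
    rw [pow_succ, mul_smul, two_smul, hS, hR]

/-- points which are not killed by a given number -/
theorem exists_nsmul_ne (N : ℕ) (hN : 0 < N) : ∃ R : E.Pt A, N • R ≠ 0 := by
  obtain ⟨R, hR⟩ := E.exists_two_pow (A := A) N
  refine ⟨R, fun h => ?_⟩
  have h1 : addOrderOf R = 2 ^ (N + 1) := by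
    have : Fact (Nat.Prime 2) := ⟨Nat.prime_two⟩
    refine addOrderOf_eq_prime_pow ?_ ?_
    · rw [hR]
      exact E.T_ne A
    · rw [pow_succ', mul_smul, hR, two_smul]
      exact E.T_add_T
  have h2 := addOrderOf_dvd_of_nsmul_eq_zero h
  rw [h1] at h2
  have h3 := Nat.le_of_dvd hN h2
  have h4 := Nat.lt_two_pow_self (n := N)
  rw [pow_succ] at h3
  omega

end

section

variable {A K : Type} [Field A] [Field K] [Algebra F A] [Algebra A K] [Algebra F K]
  [IsScalarTower F A K]

/-- the map of points for extensions -/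
noncomputable def bc (A K : Type) [Field A] [Field K] [Algebra F A] [Algebra A K] [Algebra F K]
    [IsScalarTower F A K] : E.Pt A →+ E.Pt K := E.mp (IsScalarTower.toAlgHom F A K)

theorem red_bc {k : Type} [Field k] [Algebra F k] [Algebra A k] [IsScalarTower F A k]
    (π : Pl F K k) (h : ∀ c : A, ∃ h : algebraMap A K c ∈ π.O, π.φ ⟨_, h⟩ = algebraMap A k c)
    (Q : E.Pt A) : E.red π (E.bc A K Q) = E.bc A k Q := by
  by_cases hQ : Q = 0
  · rw [hQ, map_zero, map_zero, map_zero]
  · obtain ⟨h1, h2, h3⟩ := E.mp_spec (IsScalarTower.toAlgHom F A K) hQ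
    obtain ⟨h4, h5, h6⟩ := E.mp_spec (IsScalarTower.toAlgHom F A k) hQ
    obtain ⟨hu, hu'⟩ := h (E.uu Q)
    obtain ⟨hy, hy'⟩ := h (E.yy Q)
    have e1 : E.uu (E.bc A K Q) = algebraMap A K (E.uu Q) := h2
    have e2 : E.yy (E.bc A K Q) = algebraMap A K (E.yy Q) := h3
    obtain ⟨g1, g2, g3, g4⟩ := E.red_mem π (P := E.bc A K Q) h1 (by rw [e1]; exact hu)
    refine E.ext g1 h4 ?_ ?_
    · rw [g2]
      have e3 : E.uu (E.mp (IsScalarTower.toAlgHom F A k) Q) = algebraMap A k (E.uu Q) := h5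
      change _ = E.uu (E.mp (IsScalarTower.toAlgHom F A k) Q)
      rw [e3, ← hu']
      congr 1
      exact Subtype.ext e1
    · rw [g4]
      have e3 : E.yy (E.mp (IsScalarTower.toAlgHom F A k) Q) = algebraMap A k (E.yy Q) := h6
      change _ = E.yy (E.mp (IsScalarTower.toAlgHom F A k) Q)
      rw [e3, ← hy']
      congr 1
      exact Subtype.ext e2

/-- places where a transcendental coordinate has a given value -/
theorem exists_place_value [IsAlgClosed A] {u : K} (hu : u ∉ (algebraMap A K).range) (a : A) :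
    ∃ (k : Type) (_ : Field k) (_ : Algebra F k) (_ : Algebra A k) (_ : IsScalarTower F A k)
      (π : Pl F K k), (∀ c : A, ∃ h : algebraMap A K c ∈ π.O, π.φ ⟨_, h⟩ = algebraMap A k c) ∧
      ∃ h : u ∈ π.O, π.φ ⟨_, h⟩ = algebraMap A k a := by
  have htr : Transcendental A u := by
    intro h
    exact hu (minpoly.mem_range_of_degree_eq_one A u
      (IsAlgClosed.degree_eq_one_of_irreducible A (minpoly.irreducible h.isIntegral)))
  have hind : AlgebraicIndependent A (fun _ : Unit => u) :=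
    (algebraicIndependent_unique_type_iff).2 htr
  have hsp : Sp A (fun _ : Unit => u) (fun _ : Unit => a) := by
    intro f hf
    rw [hind.eq_zero_of_aeval_eq_zero f hf, map_zero]
  obtain ⟨k, i1, i2, i3, i4, π, h1, q, h2, h3, h4⟩ := exists_place (F := F) _ _ hsp
  refine ⟨k, i1, i2, i3, i4, π, h1, ?_⟩
  obtain ⟨h5, h6⟩ := h2 ()
  refine ⟨h5, ?_⟩
  rw [h6]
  exact h4.const (a := ()) (t := a) rfl

/-- points of finite order are constant -/
theorem mem_of_tors [IsAlgClosed A] (P : E.Pt K) (N : ℕ) (hN : 0 < N) (h : N • P = 0) :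
    P ∈ (E.bc A K).range := by
  by_contra hP
  have hP0 : P ≠ 0 := by
    rintro rfl
    exact hP (zero_mem _)
  have hu : E.uu P ∉ (algebraMap A K).range := by
    rintro ⟨a, ha⟩
    exact hP (E.mem_range_mp' (IsScalarTower.toAlgHom F A K) P a ha.symm)
  obtain ⟨R, hR⟩ := E.exists_nsmul_ne (A := A) N hN
  have hR0 : R ≠ 0 := by
    rintro rfl
    exact hR (smul_zero _)
  obtain ⟨k, i1, i2, i3, i4, π, h1, h2, h3⟩ := exists_place_value (F := F) hu (E.uu R)
  obtain ⟨g1, g2, -⟩ := E.red_mem π hP0 h2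
  have h4 := E.mp_spec (IsScalarTower.toAlgHom F A k) hR0
  have h5 : E.uu (E.red π P) = E.uu (E.mp (IsScalarTower.toAlgHom F A k) R) := by
    rw [g2, h3, h4.2.1]
    rfl
  have h6 : N • E.red π P = 0 := by rw [← map_nsmul, h, map_zero]
  apply hR
  apply E.mp_inj (IsScalarTower.toAlgHom F A k)
  rw [map_zero, map_nsmul]
  rcases E.eq_or_neg g1 h4.1 h5 with h7 | h7
  · rw [← h7, h6]
  · rw [h7, smul_neg, neg_eq_zero] at h6
    exact h6

theorem eq_T_of_uu {P : E.Pt K} (hP : P ≠ 0) (h : E.uu P = 0) : P = E.T K := by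
  refine E.ext hP (E.T_ne K) (by rw [h, E.uu_T]) ?_
  rw [E.yy_T]
  have h1 := E.eqn hP
  rw [h, zero_mul, zero_mul] at h1
  exact pow_eq_zero_iff two_ne_zero |>.1 h1

/-- divisors of constant points are constant -/
theorem mem_of_nsmul [IsAlgClosed A] (P : E.Pt K) (N : ℕ) (hN : 0 < N)
    (h : N • P ∈ (E.bc A K).range) : P ∈ (E.bc A K).range := by
  by_contra hP
  have hP0 : P ≠ 0 := by
    rintro rfl
    exact hP (zero_mem _)
  have hu : E.uu P ∉ (algebraMap A K).range := by
    rintro ⟨a, ha⟩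
    exact hP (E.mem_range_mp' (IsScalarTower.toAlgHom F A K) P a ha.symm)
  obtain ⟨Q, hQ⟩ := h
  obtain ⟨k, i1, i2, i3, i4, π, h1, h2, h3⟩ := exists_place_value (F := F) hu 0
  obtain ⟨g1, g2, -⟩ := E.red_mem π hP0 h2
  have h4 : E.red π P = E.T k := E.eq_T_of_uu g1 (by rw [g2, h3, map_zero])
  have h5 : E.bc A k (2 • Q) = 0 := by
    rw [map_nsmul, ← E.red_bc π h1, hQ, map_nsmul, h4, smul_comm, two_smul ℕ (E.T k), E.T_add_T,
      smul_zero]
  have h6 : 2 • Q = 0 := by
    apply E.mp_inj (IsScalarTower.toAlgHom F A k)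
    rw [map_zero]
    exact h5
  have h7 : (2 * N) • P = 0 := by
    rw [mul_smul, ← hQ, ← map_nsmul, h6, map_zero]
  exact hP (E.mem_of_tors P (2 * N) (by omega) h7)

end

end Cv

end Pool.Agent.N113.EC
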